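import Pool.Agent.N604.MW.Stm4

/-!
# KV/MEASV: the volume of an intersection of slabs from one minor (helper78, for helper604)

The linear map which replaces the coordinates `c j` by the linear forms has the minor as its
determinant and maps the set into a box.
-/

set_option autoImplicit false

namespace Pool.Agent.N78.KV

open MeasureTheory Finset Pool.Agent.N604.MW

/-- the matrix of the linear map which replaces the coordinates `c j` by the linear forms -/
noncomputable def Mx {g ρ : ℕ} (y : Fin ρ → Fin g → ℝ) (c : Fin ρ → Fin g) :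
    Matrix (Fin g) (Fin g) ℝ :=
  open Classical in
  Matrix.of fun a b => if h : ∃ j, c j = a then y h.choose b else if a = b then 1 else 0

theorem Mx_c {g ρ : ℕ} (y : Fin ρ → Fin g → ℝ) (c : Fin ρ → Fin g) (hc : Function.Injective c)
    (j : Fin ρ) (b : Fin g) : Mx y c (c j) b = y j b := by
  have h : ∃ j', c j' = c j := ⟨j, rfl⟩
  have h1 : h.choose = j := hc h.choose_spec
  unfold Mx
  rw [Matrix.of_apply, dif_pos h, h1]

theorem Mx_nc {g ρ : ℕ} (y : Fin ρ → Fin g → ℝ) (c : Fin ρ → Fin g) {a : Fin g}
    (ha : ¬ ∃ j, c j = a) (b : Fin g) : Mx y c a b = if a = b then 1 else 0 := by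
  unfold Mx
  rw [Matrix.of_apply, dif_neg ha]

theorem det_Mx {g ρ : ℕ} (y : Fin ρ → Fin g → ℝ) (c : Fin ρ → Fin g)
    (hc : Function.Injective c) :
    (Mx y c).det = (Matrix.of fun i j => y i (c j)).det := by
  classical
  rw [Matrix.twoBlockTriangular_det (Mx y c) (fun a => ∃ j, c j = a)]
  · have h1 : (Matrix.toSquareBlockProp (Mx y c) fun a => ¬ ∃ j, c j = a) = 1 := by
      ext a b
      rw [Matrix.toSquareBlockProp_def, Matrix.of_apply, Mx_nc y c a.2, Matrix.one_apply]
      simp only [Subtype.ext_iff]
    rw [h1, Matrix.det_one, mul_one]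
    let e : Fin ρ ≃ {a : Fin g // ∃ j, c j = a} := Equiv.ofInjective c hc
    rw [← Matrix.det_submatrix_equiv_self e]
    congr 1
    ext i j
    rw [Matrix.submatrix_apply, Matrix.toSquareBlockProp_def, Matrix.of_apply, Matrix.of_apply]
    exact Mx_c y c hc i (c j)
  · rintro a ha b ⟨j, rfl⟩
    rw [Mx_nc y c ha, if_neg]
    rintro rfl
    exact ha ⟨j, rfl⟩

theorem measv : S_MEASV := by
  intro g ρ M0 T D y c hM hT hD hdet
  classical
  have hdet0 : (Matrix.of fun i j => y i (c j)).det ≠ 0 := by
    intro h
    rw [h, abs_zero] at hdet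
    linarith
  have hc : Function.Injective c := by
    intro i j hij
    by_contra hne
    exact hdet0 (Matrix.det_zero_of_column_eq hne fun k => by simp [hij])
  set f : (Fin g → ℝ) →ₗ[ℝ] (Fin g → ℝ) := Matrix.toLin' (Mx y c) with hf
  have hfdet : LinearMap.det f = (Matrix.of fun i j => y i (c j)).det := by
    rw [hf, LinearMap.det_toLin', det_Mx y c hc]
  let r : Fin g → ℝ := fun a => if ∃ j, c j = a then T else M0
  have hr : ∀ a, 0 ≤ r a := by
    intro a
    simp only [r]
    split_ifs
    · exact hT
    · exact hM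
  have hsub : {B : Fin g → ℝ | (∀ a, |B a| ≤ M0) ∧ ∀ i, |∑ a, B a * y i a| ≤ T} ⊆
      f ⁻¹' (Set.Icc (fun a => -r a) r) := by
    rintro B ⟨h1, h2⟩
    have key : ∀ a, |f B a| ≤ r a := by
      intro a
      rw [hf, Matrix.toLin'_apply]
      by_cases ha : ∃ j, c j = a
      · obtain ⟨j, rfl⟩ := ha
        simp only [r, if_pos (show ∃ j', c j' = c j from ⟨j, rfl⟩)]
        have h3 : ((Mx y c).mulVec B) (c j) = ∑ a, B a * y j a := by
          rw [Matrix.mulVec, dotProduct]
          exact Finset.sum_congr rfl fun b _ => by rw [Mx_c y c hc, mul_comm]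
        rw [h3]
        exact h2 j
      · simp only [r, if_neg ha]
        have h3 : ((Mx y c).mulVec B) a = B a := by
          rw [Matrix.mulVec, dotProduct]
          rw [Finset.sum_congr rfl fun b _ => by rw [Mx_nc y c ha]]
          simp
        rw [h3]
        exact h1 a
    exact ⟨fun a => (abs_le.1 (key a)).1, fun a => (abs_le.1 (key a)).2⟩
  refine (measure_mono hsub).trans ?_
  rw [MeasureTheory.Measure.addHaar_preimage_linearMap _ (by rw [hfdet]; exact hdet0), hfdet,
    Real.volume_Icc_pi]
  have hprod : ∏ a, ENNReal.ofReal (r a - -r a) =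
      ENNReal.ofReal ((2 * T) ^ ρ * (2 * M0) ^ (g - ρ)) := by
    rw [← ENNReal.ofReal_prod_of_nonneg fun a _ => by have := hr a; linarith]
    congr 1
    have h3 : ∀ a, r a - -r a = if ∃ j, c j = a then 2 * T else 2 * M0 := by
      intro a
      simp only [r]
      split_ifs <;> ring
    rw [Finset.prod_congr rfl fun a _ => h3 a, Finset.prod_ite, Finset.prod_const,
      Finset.prod_const]
    have h4 : (univ.filter fun a : Fin g => ∃ j, c j = a).card = ρ := by
      have : (univ.filter fun a : Fin g => ∃ j, c j = a) = univ.image c := by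
        ext a
        simp
      rw [this, Finset.card_image_of_injective _ hc, Finset.card_univ, Fintype.card_fin]
    have h5 : (univ.filter fun a : Fin g => ¬ ∃ j, c j = a).card = g - ρ := by
      rw [Finset.filter_not, Finset.card_sdiff_of_subset (Finset.filter_subset _ _), h4,
        Finset.card_univ, Fintype.card_fin]
    rw [h4, h5]
  rw [hprod, ← ENNReal.ofReal_mul (abs_nonneg _)]
  refine ENNReal.ofReal_le_ofReal ?_
  rw [abs_inv, div_eq_inv_mul]
  refine mul_le_mul_of_nonneg_right ?_ (by positivity)
  exact inv_anti₀ hD hdet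

end Pool.Agent.N78.KV
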