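import Pool.Agent.N20.AE.Stm
import Pool.Agent.Y930.NV.Cen
import Pool.Agent.N85.WM.Val

/-!
# AE/AMK: the sum over the blocks above `B` (helper78, for helper20)
-/

set_option autoImplicit false

open scoped Classical BigOperators

noncomputable section

namespace Pool.Agent.N78.AEAMK

open Pool.Agent.Y63.NV
open Pool.Agent.Y63.KR
open Pool.Agent.Y63.AWC (IsIrreducibleCharacter)
open Pool.Agent.N85.WM (BEq cnt_mod)
open Pool.Agent.N20.DI (HasDef Kd)
open Pool.Agent.N20.AE

theorem single_class {F G : Type} [Field F] [Group G] :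
    IsClassFun (Pi.single 1 1 : G → F) := by
  intro g x
  by_cases h : x = 1
  · subst h
    rw [mul_one, mul_inv_cancel]
  · rw [Pi.single_eq_of_ne h, Pi.single_eq_of_ne]
    intro h2
    rw [mul_inv_eq_one] at h2
    exact h (mul_eq_left.1 h2)

section fib

variable (p : ℕ) {F : Type} [Field F] (red : integralClosure ℤ ℂ →+* F) (d : ℕ) {K : Type}
  [Group K]

/-- characters over the block idempotent -/
def XK (z : K → F) : Type :=
  {χ : K → ℂ // IsIrreducibleCharacter χ ∧ HasDef p d χ ∧ centralValue red χ z = 1}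

/-- the block -/
def aK {z : K → F} (χ : XK p red d z) : (K → F) → F := fun f => centralValue red χ.1 f

/-- the induced block -/
def bK {N : Subgroup K} {z : K → F} (χ : XK p red d (fun x : N => z x)) : (K → F) → F :=
  fun f => centralValue red χ.1 (fun x => f x)

instance fin_XK [Finite K] (z : K → F) : Finite (XK p red d z) :=
  ((Pool.Agent.Y914.NV.irr ℂ K).1.subset
    fun _ (h : IsIrreducibleCharacter _ ∧ HasDef p d _ ∧ centralValue red _ z = 1) =>
      h.1).to_subtype

theorem card_a {z : K → F} (hz : IsClassFun z) {B : (K → F) → F} (hB : B z = 1) :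
    Nat.card {x : XK p red d z // BEq (aK p red d x) B} = kB p red d B :=
  Nat.card_congr
    { toFun := fun t => ⟨t.1.1, t.1.2.1, t.1.2.2.1, t.2⟩
      invFun := fun t => ⟨⟨t.1, t.2.1, t.2.2.1, (t.2.2.2 z hz).trans hB⟩, t.2.2.2⟩
      left_inv := fun _ => rfl
      right_inv := fun _ => rfl }

theorem card_b {N : Subgroup K} {z : K → F} (hz : IsClassFun z) {B : (K → F) → F}
    (hB : B z = 1) :
    Nat.card {x : XK p red d (fun x : N => z x) // BEq (bK p red d x) B} = kI p red d N B :=
  Nat.card_congr
    { toFun := fun t => ⟨t.1.1, t.1.2.1, t.1.2.2.1, t.2⟩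
      invFun := fun t => ⟨⟨t.1, t.2.1, t.2.2.1, (t.2.2.2 z hz).trans hB⟩, t.2.2.2⟩
      left_inv := fun _ => rfl
      right_inv := fun _ => rfl }

theorem card_a0 {z : K → F} (hz : IsClassFun z) {B : (K → F) → F} (hB : B z ≠ 1) :
    Nat.card {x : XK p red d z // BEq (aK p red d x) B} = 0 := by
  rw [Nat.card_eq_zero]
  left
  constructor
  rintro ⟨x, hx⟩
  exact hB ((hx z hz).symm.trans x.2.2.2)

theorem card_b0 {N : Subgroup K} {z : K → F} (hz : IsClassFun z) {B : (K → F) → F}
    (hB : B z ≠ 1) :
    Nat.card {x : XK p red d (fun x : N => z x) // BEq (bK p red d x) B} = 0 := by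
  rw [Nat.card_eq_zero]
  left
  constructor
  rintro ⟨x, hx⟩
  exact hB ((hx z hz).symm.trans x.2.2.2)

end fib

theorem AMK (h : S_PB) (h' : S_UP) : S_AMK := by
  intro p _ F _ _ _ red G K _ _ _ _ i B D z hS δ hδ hA hA'
  have hpD : IsPGroup p (D.map i) := by
    obtain ⟨x, _, _, _, hD, _⟩ := hS.defect
    exact hD.map i
  have ha : ∀ x : XK p red (δ + (i.range.index).factorization p) z, IsBlock (aK p red _ x) :=
    fun x => Pool.Agent.Y930.NV.cvh F red K x.1 x.2.1
  have hb : ∀ y : XK p red (δ + (i.range.index).factorization p)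
      (fun x : Subgroup.normalizer ((D.map i : Subgroup K) : Set K) => z x),
      IsBlock (bK p red _ y) :=
    fun y => (h' p F red K (D.map i) hpD y.1 y.2.1).2
  have key := cnt_mod (aK p red (δ + (i.range.index).factorization p) (z := z))
    (bK p red (δ + (i.range.index).factorization p)
      (N := Subgroup.normalizer ((D.map i : Subgroup K) : Set K)) (z := z)) ha hb 0
    (fun B' hB' => by
      rw [Nat.modEq_zero_iff]
      by_cases hz1 : B' z = 1
      · rw [card_a p red _ hS.cl hz1, card_b p red _ hS.cl hz1]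
        exact h p F red G K i B D z hS δ hδ hA hA' B' hB' hz1
      · rw [card_a0 p red _ hS.cl hz1, card_b0 p red _ hS.cl hz1])
    (z := Pi.single 1 1) single_class 1
  rw [Nat.modEq_zero_iff] at key
  have e1 : Nat.card {x : XK p red (δ + (i.range.index).factorization p) z //
      aK p red _ x (Pi.single 1 1) = 1} =
      Kd p red (δ + (i.range.index).factorization p) z 1 :=
    Nat.card_congr (Equiv.subtypeUnivEquiv fun x => (ha x).one)
  have e2 : Nat.card {x : XK p red (δ + (i.range.index).factorization p)
      (fun x : Subgroup.normalizer ((D.map i : Subgroup K) : Set K) => z x) //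
      bK p red _ x (Pi.single 1 1) = 1} =
      Kd p red (δ + (i.range.index).factorization p)
        (fun x : Subgroup.normalizer ((D.map i : Subgroup K) : Set K) => z x) 1 :=
    Nat.card_congr (Equiv.subtypeUnivEquiv fun x => (hb x).one)
  rw [← e1, ← e2]
  exact key

end Pool.Agent.N78.AEAMK
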