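import Pool.Agent.N20.DI.Stm
import Pool.Agent.R674.KB.Dz
import Pool.Agent.N85.WM.Val
import Pool.Agent.N85.WM.Modp

/-!
# DI/BL: from blocks to class functions (helper78, for helper20; model: N20/KB/Cnt)
-/

set_option autoImplicit false
set_option linter.unusedSectionVars false

open scoped Classical BigOperators

noncomputable section

namespace Pool.Agent.N78.DIBL

open Pool.Agent.Y63.NV
open Pool.Agent.Y63.KR
open Pool.Agent.Y63.AWC (IsIrreducibleCharacter)
open Pool.Agent.R674.KB (kblk dz_chain dz_unique)
open Pool.Agent.N85.WM (BEq cnt_mod card_sig)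
open Pool.Agent.N20.DI (HasDef Dg Kd OrdC S_BL)

section chains

variable {p : ℕ} {G : Type} [Group G]

theorem card_mul_alt [Finite G] (f : Subgroup G → ℤ)
    (hf : ∀ (g : G) (H : Subgroup G), f (conjSub g H) = f H)
    [Fintype {σ : Set (Subgroup G) // IsPChain p σ}] :
    (Nat.card G : ℤ) * alternatingSum p G f =
      ∑ σ : {σ : Set (Subgroup G) // IsPChain p σ},
        (-1) ^ σ.1.ncard * ((Nat.card (chainStabilizer σ.1) : ℤ) * f (chainStabilizer σ.1)) := by
  letI : MulAction G {σ : Set (Subgroup G) // IsPChain p σ} :=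
    { smul := fun g σ => ⟨conjSub g '' σ.1, σ.2.conj g⟩
      one_smul := fun σ => by
        apply Subtype.ext
        change conjSub (1 : G) '' σ.1 = σ.1
        have : (conjSub (1 : G)) = id := funext conjSub_one
        rw [this, Set.image_id]
      mul_smul := fun g h σ => by
        apply Subtype.ext
        change conjSub (g * h) '' σ.1 = conjSub g '' (conjSub h '' σ.1)
        rw [← Set.image_comp]
        congr 1
        exact funext fun P => conjSub_mul g h P }
  have hsm : ∀ (g : G) (σ : {σ : Set (Subgroup G) // IsPChain p σ}),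
      (g • σ).1 = conjSub g '' σ.1 := fun _ _ => rfl
  have h := orbit_sum (G := G) (chainSetoid p G) (by
    intro σ τ
    change (∃ g : G, τ.1 = conjSub g '' σ.1) ↔ _
    constructor
    · rintro ⟨g, hg⟩
      exact ⟨g, Subtype.ext (by rw [hsm, hg])⟩
    · rintro ⟨g, hg⟩
      exact ⟨g, by rw [← hg, hsm]⟩)
    (fun σ => (-1) ^ σ.1.ncard * f (chainStabilizer σ.1)) (by
      rintro σ τ ⟨g, hg⟩
      change (-1) ^ σ.1.ncard * f (chainStabilizer σ.1) =
        (-1) ^ τ.1.ncard * f (chainStabilizer τ.1)
      rw [hg, ncard_conj, chainStabilizer_conj, hf])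
  unfold alternatingSum
  rw [h]
  refine Finset.sum_congr rfl fun σ _ => ?_
  have hst : Nat.card (MulAction.stabilizer G σ) = Nat.card (chainStabilizer σ.1) := by
    refine Nat.card_congr (Equiv.subtypeEquivRight fun g => ?_)
    rw [MulAction.mem_stabilizer_iff, Subtype.ext_iff, hsm, mem_chainStabilizer]
    constructor
    · intro h3 P hP
      have hgP : conjSub g P ∈ σ.1 := by
        rw [← h3]
        exact ⟨P, hP, rfl⟩
      have hcard : Nat.card (conjSub g P) = Nat.card P :=
        Nat.card_congr (Subgroup.equivMapOfInjective _ _ (MulAut.conj g).injective).toEquiv.symm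
      rcases σ.2.chain.total hgP hP with h4 | h4
      · exact Subgroup.eq_of_le_of_card_ge h4 hcard.ge
      · exact (Subgroup.eq_of_le_of_card_ge h4 hcard.le).symm
    · intro h3
      ext P
      constructor
      · rintro ⟨Q, hQ, rfl⟩
        rw [h3 Q hQ]
        exact hQ
      · intro hP
        exact ⟨P, hP, h3 P hP⟩
  rw [hst]
  ring

/-- toggling a nontrivial normal `p`-subgroup -/
theorem tog_normal [Fact p.Prime] [Finite G] {O : Subgroup G} (hn : O.Normal)
    (hO : IsPGroup p O) (hO1 : O ≠ ⊥) {σ : Set (Subgroup G)} (hσ : IsPChain p σ) :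
    IsPChain p (toggle O σ) ∧ chainStabilizer (toggle O σ) = chainStabilizer σ := by
  have hL := lower_cases hσ.chain O
  have hLp : IsPGroup p (lower O σ) := by
    rcases hL with h | h
    · rw [h]; exact IsPGroup.of_bot
    · exact hσ.isPGroup _ h.1
  have hTp : IsPGroup p (toggled O σ) := IsPGroup.to_sup_of_normal_right hLp hO
  have hT1 : toggled O σ ≠ ⊥ := fun h => hO1 (le_bot_iff.mp (h ▸ le_toggled O σ))
  have hst : ∀ x : G, (∀ P ∈ σ, P ≠ toggled O σ → conjSub x P = P) →
      conjSub x (toggled O σ) = toggled O σ := by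
    intro x hx
    have h1 : conjSub x (lower O σ) = lower O σ := by
      rcases hL with h | h
      · rw [h]
        ext y
        rw [mem_conjSub, Subgroup.mem_bot, Subgroup.mem_bot]
        constructor
        · intro hy
          have : y = x * (x⁻¹ * y * x) * x⁻¹ := by group
          rw [this, hy]; group
        · rintro rfl; group
      · refine hx _ h.1 fun h2 => h.2 ?_
        rw [h2]
        exact le_toggled O σ
    have h2 : conjSub x O = O := by
      rw [conjSub_eq_iff, Subgroup.normalizer_eq_top]
      trivial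
    have h3 : conjSub x (lower O σ ⊔ O) = conjSub x (lower O σ) ⊔ conjSub x O :=
      Subgroup.map_sup _ _ _
    unfold toggled
    rw [h3, h1, h2]
  by_cases h : toggled O σ ∈ σ
  · have h1 : toggle O σ = σ \ {toggled O σ} := if_pos h
    rw [h1]
    refine ⟨⟨hσ.chain.mono Set.sdiff_subset, fun P hP => hσ.isPGroup P hP.1,
      fun P hP => hσ.ne_bot P hP.1⟩, ?_⟩
    ext x
    rw [mem_chainStabilizer, mem_chainStabilizer]
    constructor
    · intro h2 P hP
      by_cases h3 : P = toggled O σ
      · rw [h3]
        exact hst x fun Q hQ hne => h2 Q ⟨hQ, hne⟩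
      · exact h2 P ⟨hP, h3⟩
    · intro h2 P hP
      exact h2 P hP.1
  · have h1 : toggle O σ = insert (toggled O σ) σ := if_neg h
    rw [h1]
    refine ⟨⟨?_, ?_, ?_⟩, ?_⟩
    · refine hσ.chain.insert fun P hP _ => ?_
      rcases comparable (U := O) hσ.chain hP with h2 | h2
      · exact Or.inr h2
      · exact Or.inl h2
    · rintro P (rfl | hP)
      · exact hTp
      · exact hσ.isPGroup P hP
    · rintro P (rfl | hP)
      · exact hT1
      · exact hσ.ne_bot P hP
    · ext x
      rw [mem_chainStabilizer, mem_chainStabilizer]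
      constructor
      · intro h2 P hP
        exact h2 P (Set.mem_insert_of_mem _ hP)
      · rintro h2 P (rfl | hP)
        · exact hst x fun Q hQ _ => h2 Q hQ
        · exact h2 P hP

/-- the alternating sum vanishes if there is a nontrivial normal `p`-subgroup -/
theorem alt_normal [Fact p.Prime] [Finite G] {O : Subgroup G} (hn : O.Normal)
    (hO : IsPGroup p O) (hO1 : O ≠ ⊥) (f : Subgroup G → ℤ)
    (hf : ∀ (g : G) (H : Subgroup G), f (conjSub g H) = f H) :
    alternatingSum p G f = 0 := by
  have : Fintype {σ : Set (Subgroup G) // IsPChain p σ} := Fintype.ofFinite _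
  have h1 := card_mul_alt (p := p) f hf
  have h2 : ∑ σ : {σ : Set (Subgroup G) // IsPChain p σ},
      (-1) ^ σ.1.ncard * ((Nat.card (chainStabilizer σ.1) : ℤ) * f (chainStabilizer σ.1)) = 0 := by
    refine Finset.sum_involution
      (fun σ _ => ⟨toggle O σ.1, (tog_normal hn hO hO1 σ.2).1⟩) ?_ ?_ ?_ ?_
    · intro σ _
      change (-1 : ℤ) ^ σ.1.ncard * _ + (-1) ^ (toggle O σ.1).ncard *
        ((Nat.card (chainStabilizer (toggle O σ.1)) : ℤ) * f (chainStabilizer (toggle O σ.1))) = 0
      rw [ncard_toggle, (tog_normal hn hO hO1 σ.2).2]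
      ring
    · intro σ _ _ h
      have h1 : toggle O σ.1 = σ.1 := congrArg Subtype.val h
      have h2 := ncard_toggle O σ.1
      rw [h1] at h2
      have h3 : ((-1 : ℤ)) ^ σ.1.ncard ≠ 0 := pow_ne_zero _ (by norm_num)
      omega
    · intro σ _
      exact Finset.mem_univ _
    · intro σ _
      apply Subtype.ext
      exact toggle_toggle O σ.1
  rw [h2] at h1
  have h3 : (Nat.card G : ℤ) ≠ 0 := by exact_mod_cast Nat.card_pos.ne'
  exact (mul_eq_zero.1 h1).resolve_left h3

end chains

section kd

variable {p : ℕ} {F : Type} [Field F] (red : integralClosure ℤ ℂ →+* F)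

theorem Kd_iso {J K : Type} [Group J] [Group K] [Finite J] [Finite K] (e : J ≃* K) (z : J → F)
    (z' : K → F) (hz' : IsClassFun z') (h : ∀ x, z' (e x) = z x) (c : F) (D : ℕ) :
    Kd p red D z' c = Kd p red D z c := by
  have hval : ∀ χ : K → ℂ, IsIrreducibleCharacter χ →
      centralValue red (fun x => χ (e x)) z = centralValue red χ z' := by
    intro χ hχ
    rw [← Pool.Agent.Y286.NV.centralValue_comp red e χ (Pool.Agent.Y286.NV.irr_class hχ) z' hz']
    congr 1
    funext x
    exact (h x).symm
  have hdef : ∀ χ : K → ℂ, HasDef p D χ ↔ HasDef p D (fun x => χ (e x)) := by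
    intro χ
    unfold Pool.Agent.N20.DI.HasDef Pool.Agent.N20.DI.Dg
    beta_reduce
    rw [map_one, Nat.card_congr e.toEquiv]
  unfold Kd
  refine Nat.card_congr
    { toFun := fun χ => ⟨fun x => χ.1 (e x), Pool.Agent.Y63.AWC.irr_comp e χ.2.1,
        (hdef χ.1).1 χ.2.2.1, (hval χ.1 χ.2.1).trans χ.2.2.2⟩
      invFun := fun χ => ⟨fun x => χ.1 (e.symm x), Pool.Agent.Y63.AWC.irr_comp e.symm χ.2.1, ?_, ?_⟩
      left_inv := fun χ => Subtype.ext (funext fun x => by simp)
      right_inv := fun χ => Subtype.ext (funext fun x => by simp) }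
  · refine (hdef _).2 ?_
    have : (fun x => χ.1 (e.symm (e x))) = χ.1 := funext fun x => by rw [e.symm_apply_apply]
    rw [this]
    exact χ.2.2.1
  · rw [← hval _ (Pool.Agent.Y63.AWC.irr_comp e.symm χ.2.1)]
    have : (fun x => χ.1 (e.symm (e x))) = χ.1 := funext fun x => by rw [e.symm_apply_apply]
    rw [this]
    exact χ.2.2.2

theorem Kd_conj {H : Type} [Group H] [Finite H] (z : H → F) (hz : IsClassFun z) (c : F) (D : ℕ)
    (g : H) (J : Subgroup H) :
    Kd p red D (fun x : conjSub g J => z x) c = Kd p red D (fun x : J => z x) c := by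
  refine Kd_iso red (Subgroup.equivMapOfInjective J (MulAut.conj g).toMonoidHom
    (MulAut.conj g).injective) _ _ (fun a x => hz a x) (fun x => ?_) c D
  change z ((MulAut.conj g) (x : H)) = z x
  exact hz g x

end kd

section cnt

variable {F : Type} [Field F] (red : integralClosure ℤ ℂ →+* F)

/-- the pairs of a class of chains of given parity and a character of the stabiliser of given
defect -/
def XD (p D : ℕ) (G : Type) [Group G] (ε : Prop) : Type :=
  Σ q : {q : Quotient (chainSetoid p G) // Even q.out.1.ncard ↔ ε},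
    {χ : chainStabilizer q.1.out.1 → ℂ // IsIrreducibleCharacter χ ∧ HasDef p D χ}

/-- the block of a pair -/
def bX {p D : ℕ} {G : Type} [Group G] {ε : Prop} (x : XD p D G ε) : (G → F) → F :=
  fun f => centralValue red x.2.1 (fun y => f y)

variable {p D : ℕ} {G : Type} [Group G] [Finite G]

instance fin_irr (H : Type) [Group H] [Finite H] :
    Finite {χ : H → ℂ // IsIrreducibleCharacter χ ∧ HasDef p D χ} :=
  ((Pool.Agent.Y914.NV.irr ℂ H).1.subset fun _ h => h.1).to_subtype

instance fin_chain : Finite (Quotient (chainSetoid p G)) := Quotient.finite _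

instance fin_XD (ε : Prop) : Finite (XD p D G ε) := by
  unfold XD
  infer_instance

/-- the number of characters of `H` with a property of the central character -/
def nP (p D : ℕ) {G : Type} [Group G] (P : ((G → F) → F) → Prop) (H : Subgroup G) : ℕ :=
  Nat.card {χ : H → ℂ // IsIrreducibleCharacter χ ∧ HasDef p D χ ∧
    P (fun f => centralValue red χ (fun x => f x))}

theorem card_XD (P : ((G → F) → F) → Prop) (ε : Prop)
    [Fintype (Quotient (chainSetoid p G))] :
    Nat.card {x : XD p D G ε // P (bX red x)} = ∑ q : Quotient (chainSetoid p G),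
      if (Even q.out.1.ncard ↔ ε) then nP red p D P (chainStabilizer q.out.1) else 0 := by
  have h := card_sig (fun q : {q : Quotient (chainSetoid p G) // Even q.out.1.ncard ↔ ε} =>
    {χ : chainStabilizer q.1.out.1 → ℂ // IsIrreducibleCharacter χ ∧ HasDef p D χ})
    (fun x => P (bX red x))
  have _i : Fintype {q : Quotient (chainSetoid p G) // Even q.out.1.ncard ↔ ε} :=
    Fintype.ofFinite _
  refine Eq.trans h ?_
  rw [finsum_eq_sum_of_fintype, ← Finset.sum_filter]
  have h2 := Finset.sum_subtype (F := _i) (p := fun q : Quotient (chainSetoid p G) =>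
    (Even q.out.1.ncard ↔ ε)) (Finset.univ.filter (fun q : Quotient (chainSetoid p G) =>
      (Even q.out.1.ncard ↔ ε))) (by simp)
    (fun q => nP red p D P (chainStabilizer q.out.1))
  rw [h2]
  refine Finset.sum_congr rfl fun q _ => ?_
  unfold nP
  exact Nat.card_congr
    { toFun := fun t => ⟨t.1.1, t.1.2.1, t.1.2.2, t.2⟩
      invFun := fun t => ⟨⟨t.1, t.2.1, t.2.2.1⟩, t.2.2.2⟩
      left_inv := fun t => rfl
      right_inv := fun t => rfl }

/-- the alternating sum as a difference -/
theorem alt_cnt (P : ((G → F) → F) → Prop) :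
    alternatingSum p G (fun H => (nP red p D P H : ℤ)) =
      (Nat.card {x : XD p D G True // P (bX red x)} : ℤ) -
        Nat.card {x : XD p D G False // P (bX red x)} := by
  have _i : Fintype (Quotient (chainSetoid p G)) := Fintype.ofFinite _
  rw [card_XD, card_XD]
  unfold alternatingSum
  rw [finsum_eq_sum_of_fintype]
  push_cast
  rw [← Finset.sum_sub_distrib]
  refine Finset.sum_congr rfl fun q _ => ?_
  by_cases h : Even q.out.1.ncard
  · rw [h.neg_one_pow, if_pos (iff_of_true h trivial), if_neg (fun h2 => h2.1 h)]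
    ring
  · rw [(Nat.not_even_iff_odd.1 h).neg_one_pow, if_neg (fun h2 => h (h2.2 trivial)),
      if_pos (iff_of_false h id)]
    ring

variable [hp : Fact p.Prime] [IsAlgClosed F] [CharP F p]

theorem bX_block {ε : Prop} (x : XD p D G ε) : IsBlock (bX red x) :=
  kblk p F red G x.1.1.out.1 x.2.1 x.1.1.out.2 x.2.2.1

/-- from blocks to class functions -/
theorem pass (h : ∀ B : (G → F) → F, IsBlock B →
      alternatingSum p G (fun J => (nP red p D (fun b => BEq b B) J : ℤ)) = 0)
    {z : G → F} (hz : IsClassFun z) (c : F) :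
    alternatingSum p G (fun J => (nP red p D (fun b => b z = c) J : ℤ)) = 0 := by
  rw [alt_cnt]
  have h1 := cnt_mod (bX (p := p) (D := D) (G := G) (ε := True) red)
    (bX (p := p) (D := D) (G := G) (ε := False) red)
    (bX_block red) (bX_block red) 0 (fun B hB => by
      have h2 := h B hB
      rw [alt_cnt] at h2
      rw [Nat.modEq_zero_iff]
      exact_mod_cast sub_eq_zero.1 h2) hz c
  rw [Nat.modEq_zero_iff] at h1
  rw [h1, sub_self]

end cnt

/-- no characters of positive defect over `⊤` in a block of defect zero -/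
theorem top_zero {p : ℕ} [Fact p.Prime] {F : Type} [Field F] [CharP F p]
    (red : integralClosure ℤ ℂ →+* F) {G : Type} [Group G] [Fintype G] {χ : G → ℂ}
    (hχ : IsWt p (⊥ : Subgroup G) χ) {B : (G → F) → F}
    (hB : ∀ f : G → F, IsClassFun f → centralValue red χ f = B f) {D : ℕ} (hD : 1 ≤ D)
    {J : Subgroup G} (hJ : J = ⊤) {ψ : J → ℂ} (hψ : IsIrreducibleCharacter ψ)
    (hdef : HasDef p D ψ)
    (hψB : ∀ f : G → F, IsClassFun f → centralValue red ψ (fun x => f x) = B f) : False := by
  subst hJ
  let e : (⊤ : Subgroup G) ≃* G := Subgroup.topEquiv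
  have h1 : IsIrreducibleCharacter (fun x => ψ (e.symm x)) :=
    Pool.Agent.Y63.AWC.irr_comp e.symm hψ
  have h2 : (fun x : G => ψ (e.symm x)) = χ := by
    refine dz_unique (F := F) red hχ h1 fun f hf => ?_
    rw [← Pool.Agent.Y286.NV.centralValue_comp red e _ (Pool.Agent.Y286.NV.irr_class h1) f hf,
      hB f hf, ← hψB f hf]
    congr 1
  obtain ⟨n, hn, hn2⟩ := hdef
  obtain ⟨m, hm, hm2⟩ := hχ.defectZero
  have h3 : χ 1 = ψ 1 := by
    rw [← h2]
    change ψ (e.symm 1) = ψ 1
    rw [map_one]
  rw [hm, hn] at h3
  have h4 : m = n := by exact_mod_cast h3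
  have h5 : Nat.card (⊤ : Subgroup G) = Nat.card G := Nat.card_congr e.toEquiv
  rw [Subgroup.card_bot, Nat.factorization_one, Finsupp.zero_apply, add_zero, h4] at hm2
  rw [h5] at hn2
  omega

theorem BL : S_BL := by
  intro p _ F _ _ _ red H _ _ hord z hz c D hD
  have : Fintype H := Fintype.ofFinite H
  by_cases hO : ∀ P : Subgroup H, P.Normal → IsPGroup p P → P = ⊥
  · -- no nontrivial normal `p`-subgroup
    have key := pass (p := p) (D := D) (G := H) red (fun B hB => ?_) hz c
    · exact key
    · by_cases hdz : numDzBlock p red B = 0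
      · exact hord hO B hB hdz D
      · -- a block of defect zero
        obtain ⟨χ, hχ, hχB⟩ : ∃ χ : H → ℂ, IsWt p (⊥ : Subgroup H) χ ∧
            ∀ f : H → F, IsClassFun f → centralValue red χ f = B f := by
          by_contra hcon
          push Not at hcon
          apply hdz
          unfold numDzBlock
          rw [Nat.card_eq_zero]
          left
          constructor
          rintro ⟨χ, hχ, hχB⟩
          obtain ⟨f, hf, hne⟩ := hcon χ hχ
          exact hne (hχB f hf)
        have hz0 : ∀ q : Quotient (chainSetoid p H),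
            nP red p D (fun b => BEq b B) (chainStabilizer q.out.1) = 0 := by
          intro q
          unfold nP
          rw [Nat.card_eq_zero]
          left
          constructor
          rintro ⟨ψ, hψ, hdef, hψB⟩
          by_cases hne : q.out.1.Nonempty
          · refine dz_chain (F := F) red hχ q.out.2 hne hψ fun f hf => ?_
            rw [hχB f hf]
            exact hψB f hf
          · rw [Set.not_nonempty_iff_eq_empty] at hne
            have hJ : chainStabilizer q.out.1 = ⊤ := by
              rw [hne]
              exact chainStabilizer_empty (Γ := H)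
            exact top_zero red hχ hχB hD hJ hψ hdef hψB
        unfold alternatingSum
        have h1 : ∀ q : Quotient (chainSetoid p H), (-1 : ℤ) ^ q.out.1.ncard *
            (nP red p D (fun b => BEq b B) (chainStabilizer q.out.1) : ℤ) = 0 := by
          intro q
          rw [hz0 q, Nat.cast_zero, mul_zero]
        rw [finsum_congr h1, finsum_zero]
  · push Not at hO
    obtain ⟨O, hn, hOp, hO1⟩ := hO
    refine alt_normal hn hOp hO1 _ fun g J => ?_
    exact congrArg (fun n : ℕ => (n : ℤ)) (Kd_conj red z hz c D g J)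

end Pool.Agent.N78.DIBL
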