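import Pool.Agent.N988.EA.Stm4
import Pool.Agent.N80.EA_H
import Pool.Agent.N413.EA_MARG

/-!
# Project EA (helper988): conditional Borel-Cantelli for the effective couplings
-/

set_option autoImplicit false

open MeasureTheory Set Filter ProbabilityTheory
open scoped ENNReal Topology

namespace Pool.Agent.N78.EA

open Pool.Agent.N988.EA Pool.Agent.N80.EA

/-! ### independence of events which depend on disjoint sets of coordinates -/

section ind

variable {ι : Type}

/-- the event depends only on the coordinates in `S` -/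
def Dep (S : Set ι) (A : Set (ι → ℝ)) : Prop :=
  ∀ J J' : ι → ℝ, (∀ i ∈ S, J i = J' i) → (J ∈ A ↔ J' ∈ A)

theorem dep_meas_aux {S : Set ι} (m : MeasurableSpace (ι → ℝ))
    (hm : m = ⨆ i ∈ S, MeasurableSpace.comap (fun J : ι → ℝ => J i) inferInstance)
    (f : (ι → ℝ) → ι → ℝ) (h1 : ∀ i ∈ S, ∀ J, f J i = J i) (h2 : ∀ i, i ∉ S → ∀ J, f J i = 0) :
    @Measurable _ _ m MeasurableSpace.pi f := by
  refine measurable_pi_iff.2 fun i => ?_
  by_cases hi : i ∈ S
  · have k1 : @Measurable _ _ (MeasurableSpace.comap (fun J : ι → ℝ => J i) inferInstance) _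
        (fun J : ι → ℝ => J i) := comap_measurable _
    have k2 : @Measurable _ _ m _ (fun J : ι → ℝ => J i) := by
      refine k1.mono ?_ le_rfl
      rw [hm]
      exact le_iSup₂ (f := fun i (_ : i ∈ S) =>
        MeasurableSpace.comap (fun J : ι → ℝ => J i) inferInstance) i hi
    have h3 : (fun J => f J i) = fun J : ι → ℝ => J i := by
      funext J
      exact h1 i hi J
    rw [h3]
    exact k2
  · have h3 : (fun J => f J i) = fun _ : ι → ℝ => 0 := by
      funext J
      exact h2 i hi J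
    rw [h3]
    exact measurable_const

theorem dep_meas {S : Set ι} {A : Set (ι → ℝ)} (hA : MeasurableSet A) (h : Dep S A) :
    MeasurableSet[⨆ i ∈ S, MeasurableSpace.comap (fun J : ι → ℝ => J i) inferInstance] A := by
  classical
  have hf := dep_meas_aux (S := S) _ rfl (fun (J : ι → ℝ) i => if i ∈ S then J i else 0)
    (fun i hi J => if_pos hi) (fun i hi J => if_neg hi)
  have h4 : A = (fun (J : ι → ℝ) i => if i ∈ S then J i else 0) ⁻¹' A := by
    ext J
    exact h J _ (fun i hi => (if_pos hi).symm)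
  rw [h4]
  exact hf hA

theorem indep_dep (μ : Measure ℝ) [IsProbabilityMeasure μ] {S T : Set ι} (hST : Disjoint S T)
    {A B : Set (ι → ℝ)} (hA : MeasurableSet A) (hB : MeasurableSet B) (hA' : Dep S A)
    (hB' : Dep T B) : (Measure.infinitePi fun _ : ι => μ) (A ∩ B) =
      (Measure.infinitePi fun _ : ι => μ) A * (Measure.infinitePi fun _ : ι => μ) B := by
  have h1 : iIndepFun (fun (i : ι) (J : ι → ℝ) => J i) (Measure.infinitePi fun _ : ι => μ) :=
    iIndepFun_infinitePi (X := fun _ x => x) (fun _ => measurable_id)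
  have h2 := indep_iSup_of_disjoint (fun i => (measurable_pi_apply i).comap_le) h1.iIndep hST
  exact (Indep_iff _ _ _).1 h2 A B (dep_meas hA hA') (dep_meas hB hB')

end ind

/-! ### the median -/

theorem dec_real {ρ : Measure ℝ} [IsProbabilityMeasure ρ] {s : ℕ → Set ℝ} (hs : Antitone s)
    (hm : ∀ n, MeasurableSet (s n)) {c : ℝ} (h : ∀ n, c ≤ ρ.real (s n)) :
    c ≤ ρ.real (⋂ n, s n) := by
  have h1 := tendsto_measure_iInter_atTop (μ := ρ) (fun n => (hm n).nullMeasurableSet) hs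
    ⟨0, measure_ne_top _ _⟩
  have h2 := (ENNReal.tendsto_toReal (measure_ne_top _ _)).comp h1
  exact ge_of_tendsto' h2 h

theorem inc_real {ρ : Measure ℝ} [IsProbabilityMeasure ρ] {s : ℕ → Set ℝ} (hs : Monotone s)
    {c : ℝ} (h : ∀ n, ρ.real (s n) ≤ c) : ρ.real (⋃ n, s n) ≤ c := by
  have h1 := tendsto_measure_iUnion_atTop (μ := ρ) hs
  have h2 := (ENNReal.tendsto_toReal (measure_ne_top _ _)).comp h1
  exact le_of_tendsto' h2 h

theorem median (ρ : Measure ℝ) [IsProbabilityMeasure ρ] (hs : ρ.map (fun x => -x) = ρ) :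
    ∃ M : ℝ, 0 ≤ M ∧ 1 / 4 ≤ ρ.real (Ici M) ∧ 1 / 4 ≤ ρ.real (Icc 0 M) ∧
      1 / 4 ≤ ρ.real (Iic (-M)) ∧ 1 / 4 ≤ ρ.real (Icc (-M) 0) ∧ 1 / 4 ≤ ρ.real (Ici 0) ∧
      1 / 4 ≤ ρ.real (Iic 0) := by
  have neg : ∀ s : Set ℝ, MeasurableSet s → ρ.real ((fun x => -x) ⁻¹' s) = ρ.real s := by
    intro s hm
    have h1 : (ρ.map (fun x => -x)) s = ρ s := by rw [hs]
    rw [Measure.map_apply measurable_neg hm] at h1
    simp only [Measure.real, h1]
  have e0 : ρ.real (Iic 0) = ρ.real (Ici 0) := by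
    rw [← neg (Ici 0) measurableSet_Ici]
    congr 1
    ext x
    simp
  have half : 1 / 2 ≤ ρ.real (Ici 0) := by
    have h1 : ρ.real univ ≤ ρ.real (Iic 0) + ρ.real (Ici 0) := by
      rw [← Iic_union_Ici (a := (0 : ℝ))]
      exact measureReal_union_le _ _
    rw [probReal_univ, e0] at h1
    linarith
  let T : Set ℝ := {x | 1 / 4 ≤ ρ.real (Ici x)}
  have h0T : (0 : ℝ) ∈ T := by
    change 1 / 4 ≤ ρ.real (Ici 0)
    linarith
  have hbd : BddAbove T := by
    by_contra hb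
    have h1 : ∀ n : ℕ, 1 / 4 ≤ ρ.real (Ici (n : ℝ)) := by
      intro n
      by_contra hn
      apply hb
      refine ⟨n, fun x hx => ?_⟩
      by_contra hxn
      push Not at hxn
      exact hn (le_trans hx (measureReal_mono (Ici_subset_Ici.2 hxn.le)))
    have h2 := dec_real (ρ := ρ) (s := fun n : ℕ => Ici (n : ℝ))
      (fun a b hab => Ici_subset_Ici.2 (by exact_mod_cast hab)) (fun _ => measurableSet_Ici) h1
    have h3 : (⋂ n : ℕ, Ici (n : ℝ)) = ∅ := by
      ext x
      simp only [mem_iInter, mem_Ici, mem_empty_iff_false, iff_false, not_forall, not_le]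
      exact exists_nat_gt x
    rw [h3, measureReal_empty] at h2
    norm_num at h2
  let M := sSup T
  have hM0 : 0 ≤ M := le_csSup hbd h0T
  have hM1 : 1 / 4 ≤ ρ.real (Ici M) := by
    have h1 : Ici M = ⋂ n : ℕ, Ici (M - 1 / ((n : ℝ) + 1)) := by
      ext x
      simp only [mem_iInter, mem_Ici]
      constructor
      · intro hx n
        have : (0 : ℝ) < 1 / ((n : ℝ) + 1) := by positivity
        linarith
      · intro hx
        refine le_of_forall_pos_le_add fun ε hε => ?_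
        obtain ⟨n, hn⟩ := exists_nat_one_div_lt hε
        have := hx n
        linarith
    rw [h1]
    refine dec_real (fun a b hab => Ici_subset_Ici.2 ?_) (fun _ => measurableSet_Ici) fun n => ?_
    · have : (1 : ℝ) / ((b : ℝ) + 1) ≤ 1 / ((a : ℝ) + 1) :=
        one_div_le_one_div_of_le (by positivity) (by
          have : (a : ℝ) ≤ b := by exact_mod_cast hab
          linarith)
      linarith
    · have h2 : M - 1 / ((n : ℝ) + 1) < M := by
        have : (0 : ℝ) < 1 / ((n : ℝ) + 1) := by positivity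
        linarith
      obtain ⟨x, hx, hx2⟩ := exists_lt_of_lt_csSup ⟨0, h0T⟩ h2
      exact le_trans hx (measureReal_mono (Ici_subset_Ici.2 hx2.le))
  have hM2 : ρ.real (Ioi M) ≤ 1 / 4 := by
    have h1 : Ioi M = ⋃ n : ℕ, Ici (M + 1 / ((n : ℝ) + 1)) := by
      ext x
      simp only [mem_iUnion, mem_Ici, mem_Ioi]
      constructor
      · intro hx
        obtain ⟨n, hn⟩ := exists_nat_one_div_lt (sub_pos.2 hx)
        exact ⟨n, by linarith⟩
      · rintro ⟨n, hn⟩
        have : (0 : ℝ) < 1 / ((n : ℝ) + 1) := by positivity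
        linarith
    rw [h1]
    refine inc_real (fun a b hab => Ici_subset_Ici.2 ?_) fun n => ?_
    · have : (1 : ℝ) / ((b : ℝ) + 1) ≤ 1 / ((a : ℝ) + 1) :=
        one_div_le_one_div_of_le (by positivity) (by
          have : (a : ℝ) ≤ b := by exact_mod_cast hab
          linarith)
      linarith
    · by_contra hn
      push Not at hn
      have h2 : M + 1 / ((n : ℝ) + 1) ∈ T := hn.le
      have h3 := le_csSup hbd h2
      have : (0 : ℝ) < 1 / ((n : ℝ) + 1) := by positivity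
      change _ ≤ M at h3
      linarith
  have hM3 : 1 / 4 ≤ ρ.real (Icc 0 M) := by
    have h1 : ρ.real (Ici 0) ≤ ρ.real (Icc 0 M) + ρ.real (Ioi M) := by
      rw [← Icc_union_Ioi_eq_Ici hM0]
      exact measureReal_union_le _ _
    linarith
  refine ⟨M, hM0, hM1, hM3, ?_, ?_, by linarith, by linarith⟩
  · rw [← neg (Iic (-M)) measurableSet_Iic]
    have : (fun x : ℝ => -x) ⁻¹' Iic (-M) = Ici M := by
      ext x
      simp
    rwa [this]
  · rw [← neg (Icc (-M) 0) measurableSet_Icc]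
    have : (fun x : ℝ => -x) ⁻¹' Icc (-M) 0 = Icc 0 M := by
      ext x
      simp
    rwa [this]

/-! ### sums of independent variables -/

theorem toE {ρ : Measure ℝ} [IsProbabilityMeasure ρ] {s : Set ℝ} (h : 1 / 4 ≤ ρ.real s) :
    (4 : ℝ≥0∞)⁻¹ ≤ ρ s := by
  have h1 : (4 : ℝ≥0∞)⁻¹ = ENNReal.ofReal (1 / 4) := by
    rw [one_div, ENNReal.ofReal_inv_of_pos (by norm_num)]
    norm_num
  rw [h1]
  exact (ENNReal.ofReal_le_iff_le_toReal (measure_ne_top _ _)).2 h

theorem sum_le (ρ : Measure ℝ) [IsProbabilityMeasure ρ] (M : ℝ) (hM : 0 ≤ M)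
    (h1 : (4 : ℝ≥0∞)⁻¹ ≤ ρ (Icc 0 M)) (h2 : (4 : ℝ≥0∞)⁻¹ ≤ ρ (Icc (-M) 0)) : ∀ b : ℕ,
    (4 : ℝ≥0∞)⁻¹ ^ b ≤ (Measure.pi fun _ : Fin b => ρ) {y | |∑ i, y i| ≤ M} := by
  intro b
  induction b with
  | zero =>
    have : {y : Fin 0 → ℝ | |∑ i, y i| ≤ M} = univ := by
      ext y
      simp [hM]
    rw [this]
    simp
  | succ b ih =>
    let D : Set (ℝ × (Fin b → ℝ)) := {z | |z.1 + ∑ i, z.2 i| ≤ M}
    have hD : MeasurableSet D :=
      measurableSet_le ((measurable_fst.add (Finset.measurable_sum _ fun i _ =>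
        (measurable_pi_apply i).comp measurable_snd)).abs) measurable_const
    have hmp := measurePreserving_piFinSuccAbove (fun _ : Fin (b + 1) => ρ) 0
    have e1 : (MeasurableEquiv.piFinSuccAbove (fun _ : Fin (b + 1) => ℝ) 0) ⁻¹' D =
        {y | |∑ i, y i| ≤ M} := by
      ext y
      simp only [D, mem_preimage, mem_ofPred_eq, Fin.sum_univ_succ]
      rfl
    have e2 := hmp.measure_preimage hD.nullMeasurableSet
    rw [e1] at e2
    rw [e2]
    let A1 : Set (Fin b → ℝ) := {y | |∑ i, y i| ≤ M} ∩ {y | 0 ≤ ∑ i, y i}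
    let A2 : Set (Fin b → ℝ) := {y | |∑ i, y i| ≤ M} \ {y | 0 ≤ ∑ i, y i}
    have hA2 : MeasurableSet {y : Fin b → ℝ | 0 ≤ ∑ i, y i} :=
      measurableSet_le measurable_const (meas_sum b)
    have hA3 : MeasurableSet {y : Fin b → ℝ | |∑ i, y i| ≤ M} :=
      measurableSet_le (meas_sum b).abs measurable_const
    have e3 : (Measure.pi fun _ : Fin b => ρ) {y | |∑ i, y i| ≤ M} =
        (Measure.pi fun _ : Fin b => ρ) A1 + (Measure.pi fun _ : Fin b => ρ) A2 :=
      (measure_inter_add_sdiff _ hA2).symm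
    have hsub : (Icc (-M) 0) ×ˢ A1 ∪ (Icc 0 M) ×ˢ A2 ⊆ D := by
      rintro ⟨x, y⟩ (⟨hx, hy, hy2⟩ | ⟨hx, hy, hy2⟩)
      · simp only [mem_Icc] at hx
        change |∑ i, y i| ≤ M at hy
        change 0 ≤ ∑ i, y i at hy2
        change |x + ∑ i, y i| ≤ M
        rw [abs_le] at hy ⊢
        constructor <;> linarith [hx.1, hx.2, hy.1, hy.2]
      · simp only [mem_Icc] at hx
        change |∑ i, y i| ≤ M at hy
        have hy3 : ∑ i, y i < 0 := lt_of_not_ge hy2
        change |x + ∑ i, y i| ≤ M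
        rw [abs_le] at hy ⊢
        constructor <;> linarith [hx.1, hx.2, hy.1, hy.2]
    have hdisj : Disjoint ((Icc (-M) 0) ×ˢ A1) ((Icc 0 M) ×ˢ A2) := by
      rw [Set.disjoint_left]
      rintro ⟨x, y⟩ ⟨-, -, hy⟩ ⟨-, -, hy2⟩
      exact hy2 hy
    calc (4 : ℝ≥0∞)⁻¹ ^ (b + 1) = (4 : ℝ≥0∞)⁻¹ * (4 : ℝ≥0∞)⁻¹ ^ b := by rw [pow_succ']
      _ ≤ (4 : ℝ≥0∞)⁻¹ * (Measure.pi fun _ : Fin b => ρ) {y | |∑ i, y i| ≤ M} := by gcongr
      _ = (4 : ℝ≥0∞)⁻¹ * (Measure.pi fun _ : Fin b => ρ) A1 +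
          (4 : ℝ≥0∞)⁻¹ * (Measure.pi fun _ : Fin b => ρ) A2 := by rw [e3, mul_add]
      _ ≤ ρ (Icc (-M) 0) * (Measure.pi fun _ : Fin b => ρ) A1 +
          ρ (Icc 0 M) * (Measure.pi fun _ : Fin b => ρ) A2 := by gcongr
      _ = (ρ.prod (Measure.pi fun _ : Fin b => ρ)) ((Icc (-M) 0) ×ˢ A1 ∪ (Icc 0 M) ×ˢ A2) := by
          rw [measure_union hdisj (measurableSet_Icc.prod (hA3.diff hA2)), Measure.prod_prod,
            Measure.prod_prod]
      _ ≤ _ := measure_mono hsub

theorem box_le (ρ : Measure ℝ) [IsProbabilityMeasure ρ] {b : ℕ} (s : Fin b → Set ℝ)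
    (h : ∀ i, (4 : ℝ≥0∞)⁻¹ ≤ ρ (s i)) :
    (4 : ℝ≥0∞)⁻¹ ^ b ≤ (Measure.pi fun _ : Fin b => ρ) (Set.pi univ s) := by
  rw [Measure.pi_pi]
  calc (4 : ℝ≥0∞)⁻¹ ^ b = ∏ _i : Fin b, (4 : ℝ≥0∞)⁻¹ := by simp
    _ ≤ _ := Finset.prod_le_prod' fun i _ => h i

/-! ### the coordinates -/

section coord

variable {b : ℕ} (p : ℕ → Fin b × Bool)

/-- the past at the level `n` -/
def Past (n : ℕ) : Set (EdgeInf b p) := {x | Sum.elim (fun _ => True)
  (fun y : (Σ n : ℕ, {q : Fin b × Bool // q ≠ p n} × Edge b n) =>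
    y.1 < n ∨ (y.1 = n ∧ y.2.1.1.1 = (p y.1).1)) x}

/-- the other branches -/
def FY (n : ℕ) : Set (EdgeInf b p) := {x | Sum.elim (fun _ => False)
  (fun y : (Σ n : ℕ, {q : Fin b × Bool // q ≠ p n} × Edge b n) =>
    y.1 = n ∧ y.2.1.1.1 ≠ (p y.1).1) x}

/-- the sibling at the next level -/
def FS (n : ℕ) : Set (EdgeInf b p) := {x | Sum.elim (fun _ => False)
  (fun y : (Σ n : ℕ, {q : Fin b × Bool // q ≠ p n} × Edge b n) =>
    y.1 = n + 1 ∧ y.2.1.1.1 = (p y.1).1) x}

theorem disj1 (n : ℕ) : Disjoint (Past p n) (FY p n ∪ FS p n) := by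
  rw [Set.disjoint_left]
  rintro (x | y) h1 (h2 | h2)
  · exact h2
  · exact h2
  · obtain ⟨h3, h4⟩ := h2
    rcases h1 with h1 | h1
    · exact absurd h3 (by omega)
    · exact h4 h1.2
  · obtain ⟨h3, h4⟩ := h2
    rcases h1 with h1 | h1
    · exact absurd h3 (by omega)
    · exact absurd h3 (by omega)

theorem disj2 (n : ℕ) : Disjoint (FY p n) (FS p n) := by
  rw [Set.disjoint_left]
  rintro (x | y) h1 h2
  · exact h2
  · obtain ⟨h3, h4⟩ := h2
    obtain ⟨h5, h6⟩ := h1
    omega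

theorem cpl_pos (J : EdgeInf b p → ℝ) (n : ℕ) (e : Edge b (n + 1))
    (h : (e.1, e.2.1) = p n) : cpl p J (n + 1) e = cpl p J n e.2.2 := dif_pos h

theorem cpl_neg (J : EdgeInf b p → ℝ) (n : ℕ) (e : Edge b (n + 1))
    (h : (e.1, e.2.1) ≠ p n) : cpl p J (n + 1) e = J (.inr ⟨n, ⟨(e.1, e.2.1), h⟩, e.2.2⟩) :=
  dif_neg h

variable {p}

theorem cpl_congr {n : ℕ} {J J' : EdgeInf b p → ℝ} (h : ∀ x ∈ Past p n, J x = J' x) :
    ∀ m, m ≤ n → cpl p J m = cpl p J' m := by
  intro m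
  induction m with
  | zero =>
    intro _
    funext e
    exact h (.inl ()) trivial
  | succ m ih =>
    intro hm
    funext e
    by_cases he : (e.1, e.2.1) = p m
    · rw [cpl_pos p J m e he, cpl_pos p J' m e he, ih (by omega)]
    · rw [cpl_neg p J m e he, cpl_neg p J' m e he]
      exact h _ (Or.inl (by exact hm))

theorem cpl_branch {n : ℕ} {J J' : EdgeInf b p → ℝ} (h : ∀ x ∈ Past p n, J x = J' x) (m : ℕ)
    (hm : m ≤ n) (t : Bool) :
    (fun e : Edge b m => cpl p J (m + 1) ((p m).1, t, e)) =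
      fun e => cpl p J' (m + 1) ((p m).1, t, e) := by
  funext e
  by_cases he : ((p m).1, t) = p m
  · exact (cpl_pos p J m ((p m).1, t, e) he).trans ((congrFun (cpl_congr h m hm) e).trans
      (cpl_pos p J' m ((p m).1, t, e) he).symm)
  · refine (cpl_neg p J m ((p m).1, t, e) he).trans ((h _ ?_).trans
      (cpl_neg p J' m ((p m).1, t, e) he).symm)
    rcases Nat.lt_or_ge m n with h1 | h1
    · exact Or.inl h1
    · exact Or.inr ⟨le_antisymm hm h1, rfl⟩

theorem cpl_other {n : ℕ} {J J' : EdgeInf b p → ℝ} (h : ∀ x ∈ FY p n, J x = J' x) (i : Fin b)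
    (hi : i ≠ (p n).1) (t : Bool) :
    (fun e : Edge b n => cpl p J (n + 1) (i, t, e)) = fun e => cpl p J' (n + 1) (i, t, e) := by
  funext e
  have he : (i, t) ≠ p n := by
    intro h1
    rw [← h1] at hi
    exact hi rfl
  rw [cpl_neg p J n (i, t, e) he, cpl_neg p J' n (i, t, e) he]
  exact h _ ⟨rfl, hi⟩

theorem sib_congr {n : ℕ} {J J' : EdgeInf b p → ℝ} (h : ∀ x ∈ FS p n, J x = J' x) :
    sib p J (n + 1) = sib p J' (n + 1) := by
  unfold sib
  congr 1
  funext e
  have he : ((p (n + 1)).1, !(p (n + 1)).2) ≠ p (n + 1) := by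
    intro h1
    have h2 := congrArg Prod.snd h1
    simp at h2
  rw [cpl_neg p J (n + 1) ((p (n + 1)).1, !(p (n + 1)).2, e) he,
    cpl_neg p J' (n + 1) ((p (n + 1)).1, !(p (n + 1)).2, e) he]
  exact h _ ⟨rfl, rfl⟩

/-- the branches of `H (n + 1)` -/
noncomputable def W (p : ℕ → Fin b × Bool) (n : ℕ) (J : EdgeInf b p → ℝ) (i : Fin b) : ℝ :=
  ph (K n fun e => cpl p J (n + 1) (i, false, e)) (K n fun e => cpl p J (n + 1) (i, true, e))

theorem own_succ (n : ℕ) (J : EdgeInf b p → ℝ) : own p J (n + 1) = ∑ i, W p n J i := rfl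

end coord

/-! ### the laws -/

section law

variable (μ : Measure ℝ) [IsProbabilityMeasure μ] {b : ℕ} (p : ℕ → Fin b × Bool)

theorem mp_cpl (h2 : S_MARG) (n : ℕ) : MeasurePreserving (fun (J : EdgeInf b p → ℝ) => cpl p J n)
    (Measure.infinitePi fun _ : EdgeInf b p => μ) (P μ b n) :=
  ⟨(h2 μ b p n).1, (h2 μ b p n).2⟩

theorem mp_W (h2 : S_MARG) (n : ℕ) : MeasurePreserving (fun (J : EdgeInf b p → ℝ) => W p n J)
    (Measure.infinitePi fun _ : EdgeInf b p => μ) (Measure.pi fun _ : Fin b => br (lw μ b n)) := by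
  have h0 : MeasurePreserving (fun p : ℝ × ℝ => ph p.1 p.2)
      ((lw μ b n).prod (lw μ b n)) (br (lw μ b n)) := ⟨meas_ph, rfl⟩
  have h1 := h0.comp (mp_two μ b (mp_K μ b n))
  have h3 := measurePreserving_pi (fun _ : Fin b => Measure.pi fun _ : Bool × Edge b n => μ)
    (fun _ : Fin b => br (lw μ b n)) (fun _ => h1)
  exact (h3.comp (mp_branches μ b n)).comp (mp_cpl μ p h2 (n + 1))

theorem mp_sib (h1 : S_H) (h2 : S_MARG) (n : ℕ) :
    MeasurePreserving (fun (J : EdgeInf b p → ℝ) => sib p J n)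
    (Measure.infinitePi fun _ : EdgeInf b p => μ) (lw μ b n) := by
  have k1 : MeasurePreserving (K n : (Edge b n → ℝ) → ℝ) (P μ b n) (lw μ b n) :=
    ⟨(h1 μ b n).1, (h1 μ b n).2.1⟩
  have k2 : MeasurePreserving (half (p n).1 (!(p n).2) : (Edge b (n + 1) → ℝ) → Edge b n → ℝ)
      (P μ b (n + 1)) (P μ b n) := ⟨meas_half _ _, (h1 μ b n).2.2.1 _ _⟩
  exact (k1.comp k2).comp (mp_cpl μ p h2 (n + 1))

theorem meas_own (h2 : S_MARG) (n : ℕ) :
    Measurable (fun (J : EdgeInf b p → ℝ) => own p J n) :=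
  (meas_K b n).comp (h2 (Measure.dirac 0) b p n).1

end law

/-! ### one step -/

theorem Dep.inter {ι : Type} {S : Set ι} {A B : Set (ι → ℝ)} (h1 : Dep S A) (h2 : Dep S B) :
    Dep S (A ∩ B) := fun J J' h => and_congr (h1 J J' h) (h2 J J' h)

theorem Dep.diff {ι : Type} {S : Set ι} {A B : Set (ι → ℝ)} (h1 : Dep S A) (h2 : Dep S B) :
    Dep S (A \ B) := fun J J' h => and_congr (h1 J J' h) (not_congr (h2 J J' h))

theorem Dep.mono {ι : Type} {S T : Set ι} (hST : S ⊆ T) {A : Set (ι → ℝ)} (h1 : Dep S A) :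
    Dep T A := fun J J' h => h1 J J' fun i hi => h i (hST hi)

section step

variable (μ : Measure ℝ) [IsProbabilityMeasure μ] {b : ℕ} (p : ℕ → Fin b × Bool)

theorem step (h1 : S_H) (h2 : S_MARG) (hb : 2 ≤ b) (hs : μ.map (fun x => -x) = μ) (n : ℕ)
    (A : Set (EdgeInf b p → ℝ)) (hA : MeasurableSet A) (hA' : Dep (Past p n) A) :
    (Measure.infinitePi fun _ : EdgeInf b p => μ)
        (A ∩ {J | |own p J (n + 1)| < |sib p J (n + 1)|}) +
      ((4 : ℝ≥0∞)⁻¹ ^ b * (4 : ℝ≥0∞)⁻¹ ^ b) *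
        (Measure.infinitePi fun _ : EdgeInf b p => μ) A ≤
    (Measure.infinitePi fun _ : EdgeInf b p => μ) A := by
  set Q := Measure.infinitePi fun _ : EdgeInf b p => μ with hQ
  obtain ⟨M, hM0, m1, m2, m3, m4, m5, m6⟩ :=
    median (br (lw μ b n)) (symm_br (symm_lw μ b hs n))
  obtain ⟨i1, hi1⟩ : ∃ i1 : Fin b, i1 ≠ (p n).1 := by
    have : Nontrivial (Fin b) := Fin.nontrivial_iff_two_le.2 hb
    exact exists_ne _
  let sp : Fin b → Set ℝ := fun i =>
    if i = (p n).1 then univ else if i = i1 then Ici M else Ici 0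
  let sm : Fin b → Set ℝ := fun i =>
    if i = (p n).1 then univ else if i = i1 then Iic (-M) else Iic 0
  let Bp : Set (EdgeInf b p → ℝ) := {J | W p n J ∈ Set.pi univ sp}
  let Bm : Set (EdgeInf b p → ℝ) := {J | W p n J ∈ Set.pi univ sm}
  let C : Set (EdgeInf b p → ℝ) := {J | |sib p J (n + 1)| ≤ M}
  let X : Set (EdgeInf b p → ℝ) := {J | 0 ≤ W p n J (p n).1}
  have hsp : ∀ i, MeasurableSet (sp i) := by
    intro i
    simp only [sp]
    split_ifs
    · exact MeasurableSet.univ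
    · exact measurableSet_Ici
    · exact measurableSet_Ici
  have hsm : ∀ i, MeasurableSet (sm i) := by
    intro i
    simp only [sm]
    split_ifs
    · exact MeasurableSet.univ
    · exact measurableSet_Iic
    · exact measurableSet_Iic
  have hW := mp_W μ p h2 n
  have hS := mp_sib μ p h1 h2 (n + 1)
  have hBp : MeasurableSet Bp := hW.measurable (MeasurableSet.univ_pi hsp)
  have hBm : MeasurableSet Bm := hW.measurable (MeasurableSet.univ_pi hsm)
  have hC : MeasurableSet C := measurableSet_le hS.measurable.abs measurable_const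
  have hX : MeasurableSet X :=
    measurableSet_le measurable_const ((measurable_pi_apply _).comp hW.measurable)
  -- lower bounds
  have vBp : (4 : ℝ≥0∞)⁻¹ ^ b ≤ Q Bp := by
    have e1 : Q Bp = (Measure.pi fun _ : Fin b => br (lw μ b n)) (Set.pi univ sp) :=
      hW.measure_preimage (MeasurableSet.univ_pi hsp).nullMeasurableSet
    rw [e1]
    refine box_le _ _ fun i => ?_
    simp only [sp]
    split_ifs
    · rw [measure_univ]
      exact ENNReal.inv_le_one.2 (by norm_num)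
    · exact toE m1
    · exact toE m5
  have vBm : (4 : ℝ≥0∞)⁻¹ ^ b ≤ Q Bm := by
    have e1 : Q Bm = (Measure.pi fun _ : Fin b => br (lw μ b n)) (Set.pi univ sm) :=
      hW.measure_preimage (MeasurableSet.univ_pi hsm).nullMeasurableSet
    rw [e1]
    refine box_le _ _ fun i => ?_
    simp only [sm]
    split_ifs
    · rw [measure_univ]
      exact ENNReal.inv_le_one.2 (by norm_num)
    · exact toE m3
    · exact toE m6
  have vC : (4 : ℝ≥0∞)⁻¹ ^ b ≤ Q C := by
    have hm : MeasurableSet {x : ℝ | |x| ≤ M} := measurableSet_le measurable_id.abs measurable_const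
    have e1 : Q C = (lw μ b (n + 1)) {x | |x| ≤ M} :=
      hS.measure_preimage hm.nullMeasurableSet
    have e2 : (lw μ b (n + 1)) {x | |x| ≤ M} =
        (Measure.pi fun _ : Fin b => br (lw μ b n)) {y | |∑ i, y i| ≤ M} :=
      Measure.map_apply (meas_sum b) hm
    rw [e1, e2]
    exact sum_le _ M hM0 (toE m2) (toE m4) b
  -- dependence
  have dW : ∀ J J' : EdgeInf b p → ℝ, (∀ x ∈ FY p n, J x = J' x) → ∀ i, i ≠ (p n).1 →
      W p n J i = W p n J' i := by
    intro J J' h i hi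
    unfold W
    rw [cpl_other h i hi false, cpl_other h i hi true]
  have dBp : Dep (FY p n) Bp := by
    intro J J' h
    have h3 : ∀ i, W p n J i ∈ sp i ↔ W p n J' i ∈ sp i := by
      intro i
      by_cases hi : i = (p n).1
      · simp [sp, hi]
      · rw [dW J J' h i hi]
    change (∀ i, i ∈ univ → W p n J i ∈ sp i) ↔ ∀ i, i ∈ univ → W p n J' i ∈ sp i
    exact forall_congr' fun i => imp_congr Iff.rfl (h3 i)
  have dBm : Dep (FY p n) Bm := by
    intro J J' h
    have h3 : ∀ i, W p n J i ∈ sm i ↔ W p n J' i ∈ sm i := by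
      intro i
      by_cases hi : i = (p n).1
      · simp [sm, hi]
      · rw [dW J J' h i hi]
    change (∀ i, i ∈ univ → W p n J i ∈ sm i) ↔ ∀ i, i ∈ univ → W p n J' i ∈ sm i
    exact forall_congr' fun i => imp_congr Iff.rfl (h3 i)
  have dC : Dep (FS p n) C := by
    intro J J' h
    change |sib p J (n + 1)| ≤ M ↔ |sib p J' (n + 1)| ≤ M
    rw [sib_congr h]
  have dX : Dep (Past p n) X := by
    intro J J' h
    have h3 : W p n J (p n).1 = W p n J' (p n).1 := by
      unfold W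
      rw [cpl_branch h n le_rfl false, cpl_branch h n le_rfl true]
    change 0 ≤ W p n J (p n).1 ↔ 0 ≤ W p n J' (p n).1
    rw [h3]
  have prod3 : ∀ (A0 B0 : Set (EdgeInf b p → ℝ)), MeasurableSet A0 → MeasurableSet B0 →
      Dep (Past p n) A0 → Dep (FY p n) B0 → Q (A0 ∩ (B0 ∩ C)) = Q A0 * (Q B0 * Q C) := by
    intro A0 B0 a1 a2 a3 a4
    rw [hQ, indep_dep μ (disj1 p n) a1 (a2.inter hC) a3
      ((a4.mono subset_union_left).inter (dC.mono subset_union_right)),
      indep_dep μ (disj2 p n) a2 hC a4 dC]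
  -- the three parts
  have ex : ∀ J ∈ Bp ∩ C, 0 ≤ W p n J (p n).1 → ¬ |own p J (n + 1)| < |sib p J (n + 1)| := by
    rintro J ⟨hJ, hJC⟩ h0
    have h3 : ∀ i, 0 ≤ W p n J i := by
      intro i
      by_cases hi : i = (p n).1
      · rw [hi]; exact h0
      · have := hJ i trivial
        simp only [sp, if_neg hi] at this
        split_ifs at this
        · exact hM0.trans this
        · exact this
    have h4 : M ≤ W p n J i1 := by
      have := hJ i1 trivial
      simpa only [sp, if_neg hi1, if_true, mem_Ici] using this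
    have h5 : M ≤ own p J (n + 1) := by
      rw [own_succ]
      exact h4.trans (Finset.single_le_sum (fun i _ => h3 i) (Finset.mem_univ i1))
    have h6 : |sib p J (n + 1)| ≤ M := hJC
    exact not_lt.2 (h6.trans (h5.trans (le_abs_self _)))
  have ex2 : ∀ J ∈ Bm ∩ C, W p n J (p n).1 < 0 → ¬ |own p J (n + 1)| < |sib p J (n + 1)| := by
    rintro J ⟨hJ, hJC⟩ h0
    have h3 : ∀ i, 0 ≤ -W p n J i := by
      intro i
      by_cases hi : i = (p n).1
      · rw [hi]; linarith
      · have := hJ i trivial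
        simp only [sm, if_neg hi] at this
        split_ifs at this
        · simp only [mem_Iic] at this
          linarith
        · simp only [mem_Iic] at this
          linarith
    have h4 : M ≤ -W p n J i1 := by
      have := hJ i1 trivial
      simp only [sm, if_neg hi1, if_true, mem_Iic] at this
      linarith
    have h5 : M ≤ -own p J (n + 1) := by
      rw [own_succ, ← Finset.sum_neg_distrib]
      exact h4.trans (Finset.single_le_sum (f := fun i => -W p n J i) (fun i _ => h3 i)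
        (Finset.mem_univ i1))
    have h6 : |sib p J (n + 1)| ≤ M := hJC
    exact not_lt.2 (h6.trans (h5.trans (neg_le_abs _)))
  let Bad : Set (EdgeInf b p → ℝ) := {J | |own p J (n + 1)| < |sib p J (n + 1)|}
  let G1 : Set (EdgeInf b p → ℝ) := (A ∩ X) ∩ (Bp ∩ C)
  let G2 : Set (EdgeInf b p → ℝ) := (A \ X) ∩ (Bm ∩ C)
  have hG1 : MeasurableSet G1 := (hA.inter hX).inter (hBp.inter hC)
  have hG2 : MeasurableSet G2 := (hA.diff hX).inter (hBm.inter hC)
  have d1 : Disjoint (A ∩ Bad) G1 := by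
    rw [Set.disjoint_left]
    rintro J ⟨-, hJ⟩ ⟨⟨-, hx⟩, hJ2⟩
    exact ex J hJ2 hx hJ
  have d2 : Disjoint (A ∩ Bad ∪ G1) G2 := by
    rw [Set.disjoint_left]
    rintro J (⟨-, hJ⟩ | ⟨⟨-, hx⟩, -⟩) ⟨⟨-, hx2⟩, hJ2⟩
    · exact ex2 J hJ2 (lt_of_not_ge hx2) hJ
    · exact hx2 hx
  have v1 : Q G1 = Q (A ∩ X) * (Q Bp * Q C) :=
    prod3 _ _ (hA.inter hX) hBp (hA'.inter dX) dBp
  have v2 : Q G2 = Q (A \ X) * (Q Bm * Q C) :=
    prod3 _ _ (hA.diff hX) hBm (hA'.diff dX) dBm
  have v3 : Q A = Q (A ∩ X) + Q (A \ X) := (measure_inter_add_sdiff _ hX).symm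
  calc Q (A ∩ Bad) + ((4 : ℝ≥0∞)⁻¹ ^ b * (4 : ℝ≥0∞)⁻¹ ^ b) * Q A
      = Q (A ∩ Bad) + (Q (A ∩ X) * ((4 : ℝ≥0∞)⁻¹ ^ b * (4 : ℝ≥0∞)⁻¹ ^ b)) +
        (Q (A \ X) * ((4 : ℝ≥0∞)⁻¹ ^ b * (4 : ℝ≥0∞)⁻¹ ^ b)) := by
        rw [v3]
        ring
    _ ≤ Q (A ∩ Bad) + Q G1 + Q G2 := by
        rw [v1, v2]
        gcongr
    _ = Q (A ∩ Bad ∪ G1 ∪ G2) := by
        rw [measure_union d2 hG2, measure_union d1 hG1]
    _ ≤ Q A := by
        refine measure_mono ?_
        rintro J ((hJ | hJ) | hJ)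
        · exact hJ.1
        · exact hJ.1.1
        · exact hJ.1.1

theorem ae_all (h1 : S_H) (h2 : S_MARG) (hb : 2 ≤ b) (hs : μ.map (fun x => -x) = μ) :
    ∀ᵐ J ∂(Measure.infinitePi fun _ : EdgeInf b p => μ),
      ∀ k : ℕ, ∃ n, k ≤ n ∧ |sib p J n| ≤ |own p J n| := by
  rw [ae_all_iff]
  intro k
  set Q := Measure.infinitePi fun _ : EdgeInf b p => μ with hQ
  let A : ℕ → Set (EdgeInf b p → ℝ) :=
    fun j => {J | ∀ m, k ≤ m → m ≤ k + j → |own p J m| < |sib p J m|}
  have hA : ∀ j, MeasurableSet (A j) := by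
    intro j
    have e1 : A j = ⋂ m, ⋂ (_ : k ≤ m), ⋂ (_ : m ≤ k + j),
        {J : EdgeInf b p → ℝ | |own p J m| < |sib p J m|} := by
      ext J
      simp [A]
    rw [e1]
    refine MeasurableSet.iInter fun m => MeasurableSet.iInter fun _ => MeasurableSet.iInter
      fun _ => ?_
    exact measurableSet_lt (meas_own p h2 m).abs (mp_sib μ p h1 h2 m).measurable.abs
  have hA' : ∀ j, Dep (Past p (k + j)) (A j) := by
    intro j J J' h
    have e1 : ∀ m, m ≤ k + j → own p J m = own p J' m := by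
      intro m hm
      unfold own
      rw [cpl_congr h m hm]
    have e2 : ∀ m, m ≤ k + j → sib p J m = sib p J' m := by
      intro m hm
      unfold sib
      rw [cpl_branch h m hm (!(p m).2)]
    change (∀ m, k ≤ m → m ≤ k + j → |own p J m| < |sib p J m|) ↔
      ∀ m, k ≤ m → m ≤ k + j → |own p J' m| < |sib p J' m|
    refine forall_congr' fun m => imp_congr Iff.rfl ?_
    constructor
    · intro h3 h4
      rw [← e1 m h4, ← e2 m h4]
      exact h3 h4
    · intro h3 h4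
      rw [e1 m h4, e2 m h4]
      exact h3 h4
  have hsucc : ∀ j, A (j + 1) =
      A j ∩ {J : EdgeInf b p → ℝ | |own p J (k + j + 1)| < |sib p J (k + j + 1)|} := by
    intro j
    ext J
    constructor
    · intro h
      exact ⟨fun m h3 h4 => h m h3 (by omega), h (k + j + 1) (by omega) (by omega)⟩
    · rintro ⟨h3, h4⟩ m h5 h6
      rcases Nat.lt_or_ge m (k + j + 1) with h7 | h7
      · exact h3 m h5 (by omega)
      · have : m = k + j + 1 := by omega
        rw [this]
        exact h4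
  let cE : ℝ≥0∞ := (4 : ℝ≥0∞)⁻¹ ^ b * (4 : ℝ≥0∞)⁻¹ ^ b
  have h4le : (4 : ℝ≥0∞)⁻¹ ≤ 1 := ENNReal.inv_le_one.2 (by norm_num)
  have hcE1 : cE ≤ 1 := mul_le_one' (pow_le_one' h4le b) (pow_le_one' h4le b)
  have hcEt : cE ≠ ⊤ := ne_top_of_le_ne_top ENNReal.one_ne_top hcE1
  have hcE0 : cE ≠ 0 := by
    have h3 : (4 : ℝ≥0∞)⁻¹ ≠ 0 := ENNReal.inv_ne_zero.2 (by norm_num)
    exact mul_ne_zero (pow_ne_zero _ h3) (pow_ne_zero _ h3)
  let c : ℝ := cE.toReal
  have hc0 : 0 < c := ENNReal.toReal_pos hcE0 hcEt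
  have hc1 : c ≤ 1 := by
    have := ENNReal.toReal_mono ENNReal.one_ne_top hcE1
    simpa using this
  have hst : ∀ j, Q.real (A (j + 1)) ≤ (1 - c) * Q.real (A j) := by
    intro j
    have h3 := step μ p h1 h2 hb hs (k + j) (A j) (hA j) (hA' j)
    rw [← hQ, ← hsucc j] at h3
    have h4 := ENNReal.toReal_mono (measure_ne_top _ _) h3
    rw [ENNReal.toReal_add (measure_ne_top _ _) (ENNReal.mul_ne_top hcEt (measure_ne_top _ _)),
      ENNReal.toReal_mul] at h4
    change Q.real (A (j + 1)) + c * Q.real (A j) ≤ Q.real (A j) at h4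
    linarith
  have hle : ∀ j, Q.real (A j) ≤ (1 - c) ^ j := by
    intro j
    induction j with
    | zero =>
      rw [pow_zero]
      exact measureReal_le_one
    | succ j ih =>
      calc Q.real (A (j + 1)) ≤ (1 - c) * Q.real (A j) := hst j
        _ ≤ (1 - c) * (1 - c) ^ j := mul_le_mul_of_nonneg_left ih (by linarith)
        _ = (1 - c) ^ (j + 1) := by rw [pow_succ']
  have hnull : Q.real {J : EdgeInf b p → ℝ | ¬ ∃ n, k ≤ n ∧ |sib p J n| ≤ |own p J n|} = 0 := by
    refine le_antisymm ?_ measureReal_nonneg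
    have hlim : Tendsto (fun j : ℕ => (1 - c) ^ j) atTop (𝓝 0) :=
      tendsto_pow_atTop_nhds_zero_of_lt_one (by linarith) (by linarith)
    refine ge_of_tendsto' hlim fun j => ?_
    refine le_trans (measureReal_mono ?_) (hle j)
    intro J hJ m h3 h4
    by_contra h5
    exact hJ ⟨m, h3, not_lt.1 h5⟩
  rw [ae_iff]
  exact (measureReal_eq_zero_iff (measure_ne_top _ _)).1 hnull

end step

theorem t_IO (h1 : S_H) (h2 : S_MARG) : S_IO := by
  intro b hb μ _ hs β p
  have hm : Measurable (fun x : ℝ => β * x) := measurable_const_mul β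
  have hp : IsProbabilityMeasure (μ.map fun x : ℝ => β * x) :=
    Measure.isProbabilityMeasure_map hm.aemeasurable
  have hs' : (μ.map fun x : ℝ => β * x).map (fun x => -x) = μ.map fun x : ℝ => β * x := by
    rw [Measure.map_map measurable_neg hm]
    have e1 : (fun x : ℝ => -x) ∘ (fun x : ℝ => β * x) = (fun x => β * x) ∘ fun x => -x := by
      funext x
      simp
    rw [e1, ← Measure.map_map hm measurable_neg, hs]
  have h3 := ae_all (μ.map fun x : ℝ => β * x) p h1 h2 hb hs'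
  have h4 : (Measure.infinitePi fun _ : EdgeInf b p => μ.map fun x : ℝ => β * x) =
      (Measure.infinitePi fun _ : EdgeInf b p => μ).map (fun J e => β * J e) :=
    (Measure.infinitePi_map_pi (μ := fun _ : EdgeInf b p => μ)
      (f := fun _ x => β * x) (fun _ => hm)).symm
  rw [h4] at h3
  have h5 : Measurable (fun (J : EdgeInf b p → ℝ) e => β * J e) :=
    measurable_pi_lambda _ fun e => hm.comp (measurable_pi_apply e)
  exact ae_of_ae_map h5.aemeasurable h3

end Pool.Agent.N78.EA
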