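import Pool.Agent.N652.OM.Stm2
import Pool.Agent.N52.NH.BLK
import Pool.Agent.N52.NH.MAINH
import Pool.Agent.N303.KQ.FG

/-!
# OM2/FIN2: the finite form for the group (helper78, for helper652; model: N52/NH/MAINH)
-/

set_option autoImplicit false

namespace Pool.Agent.N78.OM.FIN2

open Matrix Finset
open scoped ComplexOrder
open Pool.Agent.W661.RC Pool.Agent.W683.RC Pool.Agent.N303.KQ Pool.Agent.N652.OM
open Pool.Agent.N52.NH.MAINH (hs_word)

noncomputable section

theorem lift_comp {k l : ℕ} {G : Type} [Group G] (U : Fin k → G) (w : Fin l → FreeGroup (Fin k))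
    (b : FreeGroup (Fin l)) :
    FreeGroup.lift (fun j => FreeGroup.lift U (w j)) b = FreeGroup.lift U (FreeGroup.lift w b) := by
  have h : FreeGroup.lift (fun j => FreeGroup.lift U (w j)) =
      (FreeGroup.lift U).comp (FreeGroup.lift w) := by
    apply FreeGroup.ext_hom
    intro j
    simp
  rw [h]; rfl

theorem main (hC : S_CORE2) : S_FIN2 := by
  intro Γ _ K T h l1 l2 D
  classical
  obtain ⟨l, γK, hγK⟩ := Pool.Agent.N303.KQ.exists_free D.tK
  obtain ⟨m, γT, hγT⟩ := Pool.Agent.N303.KQ.exists_free D.tT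
  let ι : Type := (Fin l ⊕ Fin m) ⊕ Unit
  let k : ℕ := Fintype.card ι
  let e : ι ≃ Fin k := Fintype.equivFin ι
  let G0 : ι → Γ := Sum.elim (Sum.elim (fun t => (γK (FreeGroup.of t) : Γ))
    (fun t => (γT (FreeGroup.of t) : Γ))) (fun _ => h)
  let γ : FreeGroup (Fin k) →* Γ := FreeGroup.lift fun s => G0 (e.symm s)
  have hγe : ∀ i : ι, γ (FreeGroup.of (e i)) = G0 i := by
    intro i
    simp [γ]
  let w : Fin l → FreeGroup (Fin k) := fun t => FreeGroup.of (e (Sum.inl (Sum.inl t)))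
  let wT : Fin m → FreeGroup (Fin k) := fun t => FreeGroup.of (e (Sum.inl (Sum.inr t)))
  have hw : ∀ t, γ (w t) = (γK (FreeGroup.of t) : Γ) := fun t => hγe _
  have hlw : ∀ b : FreeGroup (Fin l), γ (FreeGroup.lift w b) = (γK b : Γ) := by
    intro b
    have h1 : γ.comp (FreeGroup.lift w) = K.subtype.comp γK := by
      apply FreeGroup.ext_hom
      intro j
      simp [hw]
    exact congrFun (congrArg DFunLike.coe h1) b
  have hlT : ∀ b : FreeGroup (Fin m), γ (FreeGroup.lift wT b) = (γT b : Γ) := by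
    intro b
    have h1 : γ.comp (FreeGroup.lift wT) = T.subtype.comp γT := by
      apply FreeGroup.ext_hom
      intro j
      have : γ (wT j) = (γT (FreeGroup.of j) : Γ) := hγe _
      simp [this]
    exact congrFun (congrArg DFunLike.coe h1) b
  have hγ : Function.Surjective γ := by
    rw [← MonoidHom.range_eq_top, eq_top_iff, ← D.gen]
    refine sup_le (sup_le ?_ ?_) ?_
    · intro x hx
      obtain ⟨b, hb⟩ := hγK ⟨x, hx⟩
      exact ⟨FreeGroup.lift w b, by rw [hlw, hb]⟩
    · intro x hx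
      obtain ⟨b, hb⟩ := hγT ⟨x, hx⟩
      exact ⟨FreeGroup.lift wT b, by rw [hlT, hb]⟩
    · rw [Subgroup.zpowers_le]
      exact ⟨FreeGroup.of (e (Sum.inr ())), hγe _⟩
  -- conjugation words
  have hconj : ∀ (i : ι) (x : Γ), x ∈ K → (G0 i)⁻¹ * x * G0 i ∈ K := by
    intro i x hx
    rcases i with (i | i) | i
    · exact K.mul_mem (K.mul_mem (K.inv_mem (γK (FreeGroup.of i)).2) hx) (γK (FreeGroup.of i)).2
    · have h1 : x * G0 (Sum.inl (Sum.inr i)) = G0 (Sum.inl (Sum.inr i)) * x :=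
        D.comm x hx _ (γT (FreeGroup.of i)).2
      rw [mul_assoc, h1, inv_mul_cancel_left]
      exact hx
    · exact D.mono x hx
  have hv : ∀ (s : Fin k) (t : Fin l), ∃ v : FreeGroup (Fin l), (γK (FreeGroup.of t) : Γ) *
      γ (FreeGroup.of s) = γ (FreeGroup.of s) * (γK v : Γ) := by
    intro s t
    obtain ⟨i, rfl⟩ := e.surjective s
    obtain ⟨v, hv⟩ := hγK ⟨_, hconj i _ (γK (FreeGroup.of t)).2⟩
    refine ⟨v, ?_⟩
    rw [hv, hγe]
    group
  choose v hv using hv
  let ll : Fin 2 → Γ := ![l1, l2]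
  choose vw hvw using fun j : Fin 2 => hγ (ll j)
  have hvl : ∀ j : Fin 2, ∃ v : FreeGroup (Fin l), ll j * h = h * (γK v : Γ) := by
    intro j
    have h1 : h⁻¹ * ll j * h ∈ K := by
      fin_cases j
      · exact D.m1
      · exact D.m2
    obtain ⟨v, hv⟩ := hγK ⟨_, h1⟩
    refine ⟨v, ?_⟩
    rw [hv]
    group
  choose vl hvl using hvl
  have hcl : ∀ (j : Fin 2) (x : Γ), x ∈ K → ll j * x = x * ll j := by
    intro j x hx
    fin_cases j
    · exact D.c1 x hx
    · exact D.c2 x hx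
  let s0 : Fin k := e (Sum.inr ())
  have hs0 : γ (FreeGroup.of s0) = h := hγe _
  obtain ⟨K0, hK0, hB⟩ := Pool.Agent.N52.NH.BLK.main K l γK D.tK hγK
  obtain ⟨κ, hκ, hC⟩ := hC k l K0 v (v s0) vl hK0
  let rel : FreeGroup (Fin k) → FreeGroup (Fin k) → FreeGroup (Fin k) := fun a b => a * b⁻¹
  refine ⟨k, γ, rel (vw 0 * vw 1) (vw 1 * vw 0), κ, hγ, ?_, hκ, ?_⟩
  · have e0 : γ (vw 0) = l1 := hvw 0
    have e1 : γ (vw 1) = l2 := hvw 1
    simp only [rel, map_mul, map_inv, e0, e1]
    group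
  intro δ hδ
  obtain ⟨ε, hε, hC⟩ := hC δ hδ
  obtain ⟨R, δ', hRw, hδ', hB⟩ := hB ε hε
  let E1 : Finset (FreeGroup (Fin k)) := univ.image fun p : Fin k × Fin l =>
    rel (w p.2 * FreeGroup.of p.1) (FreeGroup.of p.1 * FreeGroup.lift w (v p.1 p.2))
  let E3 : Finset (FreeGroup (Fin k)) := univ.image fun p : Fin 2 × Fin l =>
    rel (w p.2 * vw p.1) (vw p.1 * w p.2)
  let E4 : Finset (FreeGroup (Fin k)) := univ.image fun j : Fin 2 =>
    rel (vw j * FreeGroup.of s0) (FreeGroup.of s0 * FreeGroup.lift w (vl j))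
  let E5 : Finset (FreeGroup (Fin k)) := R.image fun r => FreeGroup.lift w r
  refine ⟨min ε δ', E1 ∪ E3 ∪ E4 ∪ E5, lt_min hε hδ', ?_, ?_⟩
  · intro x hx
    simp only [mem_union] at hx
    rcases hx with ((hx | hx) | hx) | hx
    · obtain ⟨⟨s, t⟩, -, rfl⟩ := mem_image.1 hx
      simp only [rel, map_mul, map_inv, hw, hlw]
      rw [hv s t]
      group
    · obtain ⟨⟨j, t⟩, -, rfl⟩ := mem_image.1 hx
      simp only [rel, map_mul, map_inv, hw, hvw]
      rw [hcl j _ (γK (FreeGroup.of t)).2]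
      group
    · obtain ⟨j, -, rfl⟩ := mem_image.1 hx
      simp only [rel, map_mul, map_inv, hlw, hvw, hs0]
      rw [hvl j]
      group
    · obtain ⟨r, hr, rfl⟩ := mem_image.1 hx
      rw [hlw, hRw r hr]
      rfl
  intro d U hd hU hIrr
  have hdr : (0 : ℝ) < d := by exact_mod_cast hd
  have hle1 : min ε δ' * d ≤ ε * d := mul_le_mul_of_nonneg_right (min_le_left _ _) hdr.le
  have hle2 : min ε δ' * d ≤ δ' * d := mul_le_mul_of_nonneg_right (min_le_right _ _) hdr.le
  set UK : Fin l → unitaryGroup (Fin d) ℂ := fun t => FreeGroup.lift U (w t) with hUK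
  have hlUK : ∀ b, FreeGroup.lift UK b = FreeGroup.lift U (FreeGroup.lift w b) := by
    intro b
    rw [hUK, lift_comp]
  have hUs : ∀ s : Fin k, FreeGroup.lift U (FreeGroup.of s) = U s :=
    fun s => FreeGroup.lift_apply_of
  obtain ⟨O, hO⟩ := hB d UK hd fun r hr => by
    rw [hlUK]
    exact (hU _ (by
      simp only [mem_union]
      exact Or.inr (mem_image.2 ⟨r, hr, rfl⟩))).trans hle2
  have key := hC d U UK (U s0) (fun j => FreeGroup.lift U (vw j)) O hd hO.en hO.near hO.size hIrr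
    ?_ ?_ ?_ ?_
  · have h1 : hs ((FreeGroup.lift U (rel (vw 0 * vw 1) (vw 1 * vw 0)) : Mt d) - 1) =
        hs ((FreeGroup.lift U (vw 0) : Mt d) * (FreeGroup.lift U (vw 1) : Mt d) -
          (FreeGroup.lift U (vw 1) : Mt d) * (FreeGroup.lift U (vw 0) : Mt d)) := by
      simp only [rel]
      rw [hs_word, map_mul, map_mul, UnitaryGroup.mul_val, UnitaryGroup.mul_val]
    rw [h1]
    exact key
  · intro s t
    have h1 := hU (rel (w t * FreeGroup.of s) (FreeGroup.of s * FreeGroup.lift w (v s t))) (by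
      simp only [mem_union]
      exact Or.inl (Or.inl (Or.inl (mem_image.2 ⟨(s, t), mem_univ _, rfl⟩))))
    simp only [rel] at h1
    rw [hs_word, map_mul, map_mul, UnitaryGroup.mul_val, UnitaryGroup.mul_val,
      hUs s, ← hlUK] at h1
    exact h1.trans hle1
  · intro t
    have h1 := hU (rel (w t * FreeGroup.of s0) (FreeGroup.of s0 * FreeGroup.lift w (v s0 t))) (by
      simp only [mem_union]
      exact Or.inl (Or.inl (Or.inl (mem_image.2 ⟨(s0, t), mem_univ _, rfl⟩))))
    simp only [rel] at h1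
    rw [hs_word, map_mul, map_mul, UnitaryGroup.mul_val, UnitaryGroup.mul_val,
      hUs s0, ← hlUK] at h1
    exact h1.trans hle1
  · intro j t
    have h1 := hU (rel (w t * vw j) (vw j * w t)) (by
      simp only [mem_union]
      exact Or.inl (Or.inl (Or.inr (mem_image.2 ⟨(j, t), mem_univ _, rfl⟩))))
    simp only [rel] at h1
    rw [hs_word, map_mul, map_mul, UnitaryGroup.mul_val, UnitaryGroup.mul_val] at h1
    exact h1.trans hle1
  · intro j
    have h1 := hU (rel (vw j * FreeGroup.of s0) (FreeGroup.of s0 * FreeGroup.lift w (vl j))) (by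
      simp only [mem_union]
      exact Or.inl (Or.inr (mem_image.2 ⟨j, mem_univ _, rfl⟩)))
    simp only [rel] at h1
    rw [hs_word, map_mul, map_mul, UnitaryGroup.mul_val, UnitaryGroup.mul_val,
      hUs s0, ← hlUK] at h1
    exact h1.trans hle1

end

end Pool.Agent.N78.OM.FIN2
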