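import Pool.Agent.N404.KL.Stm

set_option autoImplicit false

/-!
# Project KL, part DER: the differences of the tent function
-/

namespace Pool.Agent.N78.KLDER

open Finset Classical Pool.Agent.N404.LF Pool.Agent.N404.KL

lemma tent_nonneg (C u : ℝ) : 0 ≤ tent C u := le_max_left _ _

lemma tent_lip {C : ℝ} (hC : 1 ≤ C) (a b : ℝ) : |tent C a - tent C b| ≤ |a - b| / C := by
  have hC0 : 0 < C := by linarith
  have h1 : |tent C a - tent C b| ≤ |(1 - |a| / C) - (1 - |b| / C)| := by
    have h := abs_max_sub_max_le_abs (1 - |a| / C) (1 - |b| / C) 0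
    unfold tent
    rw [max_comm 0, max_comm 0]
    exact h
  have h2 : (1 - |a| / C) - (1 - |b| / C) = (|b| - |a|) / C := by ring
  rw [h2, abs_div, abs_of_pos hC0] at h1
  refine h1.trans ?_
  have h3 := abs_abs_sub_abs_le b a
  rw [abs_sub_comm b a] at h3
  gcongr

lemma tent_zero {C : ℝ} (hC : 1 ≤ C) {u : ℝ} (h : C ≤ |u|) : tent C u = 0 := by
  have hC0 : 0 < C := by linarith
  unfold tent
  apply max_eq_left
  have : 1 ≤ |u| / C := by rw [le_div_iff₀ hC0]; linarith
  linarith

section

variable {J : Type} [DecidableEq J] (j : J)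

/-- flip the bit `j` -/
def fl (e : J → Bool) : J → Bool := Function.update e j (!(e j))

lemma fl_self (e : J → Bool) : fl j e j = !(e j) := by simp [fl]

lemma fl_ne (e : J → Bool) {k : J} (h : k ≠ j) : fl j e k = e k := by
  simp [fl, Function.update_of_ne h]

lemma fl_fl (e : J → Bool) : fl j (fl j e) = e := by
  funext k
  by_cases h : k = j
  · subst h; rw [fl_self, fl_self, Bool.not_not]
  · rw [fl_ne j _ h, fl_ne j _ h]

/-- the flip as an equivalence -/
def flE : (J → Bool) ≃ (J → Bool) where
  toFun := fl j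
  invFun := fl j
  left_inv := fl_fl j
  right_inv := fl_fl j

end

theorem main : S_DER := by
  intro J _ _ α C s j hC hα hs0 hs1
  have hC0 : 0 < C := by linarith
  set U : (J → Bool) → ℝ := fun e => ∑ k ∈ univ.erase j, α k * sg (e k) with hU
  set P : (J → Bool) → (J → Bool) → ℝ :=
    fun e e' => ∏ k ∈ univ.erase j, (1 + s * sg (e k) * sg (e' k)) with hP
  set D : (J → Bool) → ℝ := fun e => tent C (U e + α j) - tent C (U e - α j) with hD
  set F : (J → Bool) → ℝ := fun e => tent C (∑ k, α k * sg (e k)) * sg (e j) with hF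
  have hsplit : ∀ e : J → Bool, ∑ k, α k * sg (e k) = U e + α j * sg (e j) := by
    intro e
    rw [hU, add_comm]
    exact (Finset.add_sum_erase univ (fun k => α k * sg (e k)) (mem_univ j)).symm
  have hUf : ∀ e, U (fl j e) = U e := by
    intro e
    refine Finset.sum_congr rfl fun k hk => ?_
    rw [fl_ne j e (Finset.ne_of_mem_erase hk)]
  have hPf : ∀ e e', P e (fl j e') = P e e' := by
    intro e e'
    refine Finset.prod_congr rfl fun k hk => ?_
    rw [fl_ne j e' (Finset.ne_of_mem_erase hk)]
  have hPf' : ∀ e e', P (fl j e) e' = P e e' := by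
    intro e e'
    refine Finset.prod_congr rfl fun k hk => ?_
    rw [fl_ne j e (Finset.ne_of_mem_erase hk)]
  have hFD : ∀ e, F e + F (fl j e) = D e := by
    intro e
    simp only [hF, hD]
    rw [hsplit, hsplit, hUf, fl_self]
    rcases Bool.eq_false_or_eq_true (e j) with h | h
    · rw [h]; simp [sg]; ring_nf
    · rw [h]; simp [sg]; ring_nf
  have key : ∀ Q : (J → Bool) → ℝ, (∀ e, Q (fl j e) = Q e) →
      ∑ e, F e * Q e = 1 / 2 * ∑ e, D e * Q e := by
    intro Q hQ
    have h1 : ∑ e, F (fl j e) * Q (fl j e) = ∑ e, F e * Q e :=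
      Equiv.sum_comp (flE j) (fun e => F e * Q e)
    have h2 : ∑ e, D e * Q e = ∑ e, F e * Q e + ∑ e, F (fl j e) * Q (fl j e) := by
      rw [← Finset.sum_add_distrib]
      refine Finset.sum_congr rfl fun e _ => ?_
      rw [← hFD e, hQ]
      ring
    rw [h2, h1]
    ring
  have hPnn : ∀ e e', 0 ≤ P e e' := by
    intro e e'
    refine Finset.prod_nonneg fun k _ => ?_
    have h1 : |sg (e k) * sg (e' k)| ≤ 1 := by
      unfold sg
      split_ifs <;> simp
    have h2 := (abs_le.1 h1).1
    nlinarith
  have hDb : ∀ e, |D e| ≤ 2 * |α j| / C := by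
    intro e
    refine (tent_lip hC _ _).trans (le_of_eq ?_)
    have : U e + α j - (U e - α j) = 2 * α j := by ring
    rw [this, abs_mul]
    norm_num
  have hD0 : ∀ e, C + 1 < |U e| → D e = 0 := by
    intro e he
    have h1 := abs_sub_abs_le_abs_sub (U e) (-(α j))
    have h2 := abs_sub_abs_le_abs_sub (U e) (α j)
    rw [abs_neg, sub_neg_eq_add] at h1
    have h3 := hα j
    simp only [hD]
    rw [tent_zero hC (by linarith : C ≤ |U e + α j|), tent_zero hC (by linarith : C ≤ |U e - α j|),
      sub_zero]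
  have hL : ∑ e : J → Bool, ∑ e' : J → Bool,
      tent C (∑ k, α k * sg (e k)) * tent C (∑ k, α k * sg (e' k)) * (sg (e j) * sg (e' j)) *
        ∏ k ∈ univ.erase j, (1 + s * sg (e k) * sg (e' k)) =
      1 / 4 * ∑ e : J → Bool, ∑ e' : J → Bool, D e * D e' * P e e' := by
    have e1 : ∀ e : J → Bool, ∑ e' : J → Bool,
        tent C (∑ k, α k * sg (e k)) * tent C (∑ k, α k * sg (e' k)) * (sg (e j) * sg (e' j)) *
        ∏ k ∈ univ.erase j, (1 + s * sg (e k) * sg (e' k)) = F e * (∑ e', F e' * P e e') := by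
      intro e
      rw [Finset.mul_sum]
      refine Finset.sum_congr rfl fun e' _ => ?_
      simp only [hF, hP]
      ring
    rw [Finset.sum_congr rfl fun e _ => e1 e, key (fun e => ∑ e', F e' * P e e')
      (fun e => Finset.sum_congr rfl fun e' _ => by rw [hPf'])]
    have e2 : ∀ e, D e * (∑ e', F e' * P e e') = 1 / 2 * ∑ e', D e * D e' * P e e' := by
      intro e
      rw [key (fun e' => P e e') (fun e' => hPf e e'), Finset.mul_sum, Finset.mul_sum,
        Finset.mul_sum]
      refine Finset.sum_congr rfl fun e' _ => ?_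
      ring
    rw [Finset.sum_congr rfl fun e _ => e2 e, ← Finset.mul_sum]
    ring
  rw [hL, Finset.mul_sum, Finset.mul_sum]
  refine Finset.sum_le_sum fun e _ => ?_
  rw [Finset.mul_sum, Finset.mul_sum]
  refine Finset.sum_le_sum fun e' _ => ?_
  split_ifs with hc
  · have h1 : D e * D e' ≤ (2 * |α j| / C) * (2 * |α j| / C) := by
      refine (le_abs_self _).trans ?_
      rw [abs_mul]
      exact mul_le_mul (hDb e) (hDb e') (abs_nonneg _) ((abs_nonneg _).trans (hDb e))
    have h2 : (2 * |α j| / C) * (2 * |α j| / C) = 4 * (α j ^ 2 / C ^ 2) := by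
      rw [div_mul_div_comm, ← sq_abs (α j)]
      ring
    rw [h2] at h1
    have h3 := mul_le_mul_of_nonneg_right h1 (hPnn e e')
    change 1 / 4 * (D e * D e' * P e e') ≤ α j ^ 2 / C ^ 2 * P e e'
    linarith
  · rw [mul_zero]
    have : D e = 0 ∨ D e' = 0 := by
      by_contra hcon
      push Not at hcon
      apply hc
      constructor
      · by_contra h
        exact hcon.1 (hD0 e (not_le.1 h))
      · by_contra h
        exact hcon.2 (hD0 e' (not_le.1 h))
    rcases this with h | h
    · rw [h]; simp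
    · rw [h]; simp

end Pool.Agent.N78.KLDER
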