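import Pool.Agent.N585.LB.Defs

/-!
# LOTS embedding of the fractal order (LB/7)
-/

namespace Pool.Agent.N78.LBFracE

open Cardinal Set Pool.Agent.N585.LB

universe u

theorem exists_between' {L : Type u} [LinearOrder L] (hL : InC L) {a b : L} (h : a < b) :
    ∃ c, a < c ∧ c < b := by
  have h1 := hL.dense a b h
  have h2 : Nonempty (Ioo a b) := by
    rw [← Cardinal.mk_ne_zero_iff, h1]
    exact (Cardinal.aleph_pos 1).ne'
  obtain ⟨c, hc⟩ := h2
  exact ⟨c, hc.1, hc.2⟩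

/-- good triples -/
structure St (L : Type u) [LinearOrder L] (a0 b0 : L) where
  a : L
  p : L
  b : L
  h0 : a0 ≤ a
  h1 : a < p
  h2 : p < b
  h3 : b ≤ b0

theorem exists_sup {L : Type u} [LinearOrder L] (hL : InC L) :
    ∃ σ : L → ℕ → L, ∀ p : L, (Iio p).Nonempty → (∀ n, σ p n < p) ∧ StrictMono (σ p) ∧
      ∀ z, z < p → ∃ n, z < σ p n := by
  have : ∀ p : L, ∃ s : ℕ → L, (Iio p).Nonempty → (∀ n, s n < p) ∧ StrictMono s ∧
      ∀ z, z < p → ∃ n, z < s n := by
    intro p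
    by_cases hp : (Iio p).Nonempty
    · obtain ⟨s, hs1, hs2⟩ := hL.cof p hp
      refine ⟨s, fun _ => ⟨fun n => ?_, hs1, fun z hz => ?_⟩⟩
      · exact lt_of_lt_of_le (hs1 (Nat.lt_succ_self n)) (hs2.1 ⟨n + 1, rfl⟩)
      · obtain ⟨y, ⟨n, rfl⟩, hy, _⟩ := hs2.exists_between hz
        exact ⟨n, hy⟩
    · exact ⟨fun _ => p, fun h => absurd h hp⟩
  choose σ hσ using this
  exact ⟨σ, hσ⟩

theorem exists_inf {L : Type u} [LinearOrder L] (hL : InC L) :
    ∃ σ : L → ℕ → L, ∀ p : L, (Ioi p).Nonempty → (∀ n, p < σ p n) ∧ StrictAnti (σ p) ∧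
      ∀ z, p < z → ∃ n, σ p n < z := by
  have : ∀ p : L, ∃ s : ℕ → L, (Ioi p).Nonempty → (∀ n, p < s n) ∧ StrictAnti s ∧
      ∀ z, p < z → ∃ n, s n < z := by
    intro p
    by_cases hp : (Ioi p).Nonempty
    · obtain ⟨s, hs1, hs2⟩ := hL.coi p hp
      refine ⟨s, fun _ => ⟨fun n => ?_, hs1, fun z hz => ?_⟩⟩
      · exact lt_of_le_of_lt (hs2.1 ⟨n + 1, rfl⟩) (hs1 (Nat.lt_succ_self n))
      · obtain ⟨y, ⟨n, rfl⟩, _, hy⟩ := hs2.exists_between hz
        exact ⟨n, hy⟩
    · exact ⟨fun _ => p, fun h => absurd h hp⟩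
  choose σ hσ using this
  exact ⟨σ, hσ⟩

theorem lam_cases {T : Type u} (P : Lam T → Prop) (h1 : ∀ t, P (lf t)) (h2 : P (mid T))
    (h3 : ∀ t, P (rt t)) (l : Lam T) : P l := by
  rcases l with t | w
  · exact h1 t
  · induction w using WithBot.recBotCoe with
    | bot => exact h2
    | coe t => exact h3 t

theorem lf_lt_mid {T : Type u} [LinearOrder T] (t : T) : lf t < mid T :=
  Sum.Lex.inl_lt_inr _ _

theorem mid_lt_rt {T : Type u} [LinearOrder T] (t : T) : mid T < rt t :=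
  Sum.Lex.inr_lt_inr_iff.2 (WithBot.bot_lt_coe t)

/-- the step -/
theorem exists_step {T L : Type u} [LinearOrder T] [LinearOrder L] (hL : InC L) {a0 b0 : L}
    (hD : ∀ c d : L, a0 ≤ c → c < d → d ≤ b0 → Discr T L c d)
    (σ τ : L → ℕ → L)
    (hσ : ∀ p : L, (Iio p).Nonempty → ∀ n, σ p n < p)
    (hτ : ∀ p : L, (Ioi p).Nonempty → ∀ n, p < τ p n)
    (N : ℕ) (s : St L a0 b0) :
    ∃ g : Lam T → St L a0 b0, (∀ l, s.a ≤ (g l).a ∧ (g l).b ≤ s.b) ∧
      (∀ l l', l < l' → (g l).b ≤ (g l').a) ∧ (g (mid T)).p = s.p ∧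
      σ s.p N ≤ (g (mid T)).a ∧ (g (mid T)).b ≤ τ s.p N := by
  obtain ⟨c, hc1, hc2⟩ := exists_between' hL s.h1
  obtain ⟨d, hd1, hd2⟩ := exists_between' hL s.h2
  have hs1 := hσ s.p ⟨s.a, s.h1⟩ N
  have hs2 := hτ s.p ⟨s.b, s.h2⟩ N
  set a' := max c (σ s.p N) with ha'
  set b' := min d (τ s.p N) with hb'
  have ha1 : s.a < a' := lt_of_lt_of_le hc1 (le_max_left _ _)
  have ha2 : a' < s.p := max_lt hc2 hs1
  have hb1 : s.p < b' := lt_min hd1 hs2
  have hb2 : b' < s.b := lt_of_le_of_lt (min_le_left _ _) hd2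
  have hab : a' < b' := ha2.trans hb1
  obtain ⟨u, v, huv, huv'⟩ := hD s.a a' s.h0 ha1 ((ha2.trans s.h2).le.trans s.h3)
  obtain ⟨u', v', hw, hw'⟩ := hD b' s.b (s.h0.trans (s.h1.trans hb1).le) hb2 s.h3
  choose m hm1 hm2 using fun t => exists_between' hL (huv t).2.1
  choose m' hm1' hm2' using fun t => exists_between' hL (hw t).2.1
  let ml : T → St L a0 b0 := fun t => ⟨u t, m t, v t, s.h0.trans (huv t).1, hm1 t, hm2 t,
    (huv t).2.2.trans ((ha2.trans s.h2).le.trans s.h3)⟩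
  let mr : T → St L a0 b0 := fun t => ⟨u' t, m' t, v' t,
    (s.h0.trans (s.h1.trans hb1).le).trans (hw t).1, hm1' t, hm2' t, (hw t).2.2.trans s.h3⟩
  let mm : St L a0 b0 := ⟨a', s.p, b', s.h0.trans ha1.le, ha2, hb1, hb2.le.trans s.h3⟩
  let g : Lam T → St L a0 b0 := fun l =>
    Sum.elim ml (fun w => WithBot.recBotCoe (C := fun _ => St L a0 b0) mm mr w) (ofLex l)
  have gl : ∀ t, g (lf t) = ml t := fun t => rfl
  have gr : ∀ t, g (rt t) = mr t := fun t => rfl
  have gm : g (mid T) = mm := rfl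
  refine ⟨g, ?_, ?_, ?_, ?_, ?_⟩
  · intro l
    induction l using lam_cases with
    | h1 t => rw [gl]; exact ⟨(huv t).1, (huv t).2.2.trans (ha2.trans s.h2).le⟩
    | h2 => rw [gm]; exact ⟨ha1.le, hb2.le⟩
    | h3 t => rw [gr]; exact ⟨(s.h1.trans hb1).le.trans (hw t).1, (hw t).2.2⟩
  · intro l l' hll
    induction l using lam_cases with
    | h1 t =>
      induction l' using lam_cases with
      | h1 t' =>
        rw [gl, gl]
        exact huv' t t' (Sum.Lex.inl_lt_inl_iff.1 hll)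
      | h2 => rw [gl, gm]; exact (huv t).2.2
      | h3 t' => rw [gl, gr]; exact (huv t).2.2.trans (hab.le.trans (hw t').1)
    | h2 =>
      induction l' using lam_cases with
      | h1 t' => exact absurd hll (lf_lt_mid t').not_gt
      | h2 => exact absurd hll (lt_irrefl _)
      | h3 t' => rw [gm, gr]; exact (hw t').1
    | h3 t =>
      induction l' using lam_cases with
      | h1 t' => exact absurd hll ((lf_lt_mid t').trans (mid_lt_rt t)).not_gt
      | h2 => exact absurd hll (mid_lt_rt t).not_gt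
      | h3 t' =>
        rw [gr, gr]
        exact hw' t t' (WithBot.coe_lt_coe.1 (Sum.Lex.inr_lt_inr_iff.1 hll))
  · rw [gm]
  · rw [gm]; exact le_max_right _ _
  · rw [gm]; exact min_le_right _ _

theorem stmFracE (h : StmDel.{u}) : StmFracE.{u} := by
  intro T L _ _ hL hT hD
  obtain ⟨a0, b0, hab, hD⟩ := hD
  obtain ⟨t0⟩ := hT
  obtain ⟨σ, hσ⟩ := exists_sup hL
  obtain ⟨τ, hτ⟩ := exists_inf hL
  choose step hs0 hs1 hs2 hs3 hs4 using fun N s =>
    exists_step (T := T) hL hD σ τ (fun p hp => (hσ p hp).1) (fun p hp => (hτ p hp).1) N s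
  obtain ⟨p0, hp1, hp2⟩ := exists_between' hL hab
  let s0 : St L a0 b0 := ⟨a0, p0, b0, le_rfl, hp1, hp2, le_rfl⟩
  let st : (ℕ → Lam T) → ℕ → St L a0 b0 := fun x n =>
    Nat.rec s0 (fun n s => step n s (x n)) n
  have st0 : ∀ x, st x 0 = s0 := fun x => rfl
  have stS : ∀ x n, st x (n + 1) = step n (st x n) (x n) := fun x n => rfl
  have hdep : ∀ (x y : ℕ → Lam T) (n : ℕ), (∀ m < n, x m = y m) → st x n = st y n := by
    intro x y n
    induction n with
    | zero => intro _; rfl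
    | succ n ih =>
      intro hxy
      rw [stS, stS, ih (fun m hm => hxy m (by omega)), hxy n (by omega)]
  have hmono_a : ∀ (x : ℕ → Lam T) (m n : ℕ), m ≤ n → (st x m).a ≤ (st x n).a := by
    intro x m n hmn
    induction n, hmn using Nat.le_induction with
    | base => exact le_rfl
    | succ n _ ih => exact ih.trans (by rw [stS]; exact (hs0 _ _ _).1)
  have hmono_b : ∀ (x : ℕ → Lam T) (m n : ℕ), m ≤ n → (st x n).b ≤ (st x m).b := by
    intro x m n hmn
    induction n, hmn using Nat.le_induction with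
    | base => exact le_rfl
    | succ n _ ih => exact le_trans (by rw [stS]; exact (hs0 _ _ _).2) ih
  have hp : ∀ (x : ℕ → Lam T) (n : ℕ), (∀ m, n ≤ m → x m = mid T) →
      ∀ m, n ≤ m → (st x m).p = (st x n).p := by
    intro x n hx m hnm
    induction m, hnm using Nat.le_induction with
    | base => rfl
    | succ m hm ih => rw [stS, hx m hm, hs2, ih]
  let nx : Frac T → ℕ := fun x => x.2.choose
  have hnx : ∀ (x : Frac T) (m : ℕ), nx x ≤ m → ofLex x.1 m = mid T := fun x => x.2.choose_spec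
  let f : Frac T → L := fun x => (st (ofLex x.1) (nx x)).p
  have hf : ∀ (x : Frac T) (m : ℕ), nx x ≤ m → (st (ofLex x.1) m).p = f x := fun x m hm =>
    hp _ _ (hnx x) m hm
  have hfa : ∀ (x : Frac T) (m : ℕ), (st (ofLex x.1) m).a < f x := by
    intro x m
    have h1 := hmono_a (ofLex x.1) m (max m (nx x)) (le_max_left _ _)
    have h2 := (st (ofLex x.1) (max m (nx x))).h1
    rw [hf x _ (le_max_right _ _)] at h2
    exact lt_of_le_of_lt h1 h2
  have hfb : ∀ (x : Frac T) (m : ℕ), f x < (st (ofLex x.1) m).b := by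
    intro x m
    have h1 := hmono_b (ofLex x.1) m (max m (nx x)) (le_max_left _ _)
    have h2 := (st (ofLex x.1) (max m (nx x))).h2
    rw [hf x _ (le_max_right _ _)] at h2
    exact lt_of_lt_of_le h2 h1
  have hltdef : ∀ x y : Frac T, x < y → ∃ N, (∀ m < N, ofLex x.1 m = ofLex y.1 m) ∧
      ofLex x.1 N < ofLex y.1 N := fun x y hxy => hxy
  have hltdef' : ∀ x y : Frac T, (∃ N, (∀ m < N, ofLex x.1 m = ofLex y.1 m) ∧
      ofLex x.1 N < ofLex y.1 N) → x < y := fun x y hxy => hxy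
  have hfm : StrictMono f := by
    intro x y hxy
    obtain ⟨N, hN1, hN2⟩ := hltdef x y hxy
    have h1 := hfb x (N + 1)
    have h2 := hfa y (N + 1)
    have h3 : (st (ofLex x.1) (N + 1)).b ≤ (st (ofLex y.1) (N + 1)).a := by
      rw [stS, stS, hdep _ _ N hN1]
      exact hs1 _ _ _ _ hN2
    exact h1.trans_le (h3.trans h2.le) |>.trans_le le_rfl |> fun h => lt_of_lt_of_le h1 h3 |>.trans h2
  refine ⟨f, h.1 (Frac T) L f hfm ?_⟩
  intro x
  have key : ∀ (N : ℕ) (l : Lam T), nx x ≤ N → ∃ y : Frac T,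
      (∀ m < N + 1, ofLex y.1 m = ofLex x.1 m) ∧ ofLex y.1 (N + 1) = l := by
    intro N l hN
    refine ⟨⟨toLex (Function.update (ofLex x.1) (N + 1) l), N + 2, fun m hm => ?_⟩, ?_, ?_⟩
    · change Function.update (ofLex x.1) (N + 1) l m = mid T
      rw [Function.update_of_ne (by omega)]
      exact hnx x m (by omega)
    · intro m hm
      change Function.update (ofLex x.1) (N + 1) l m = _
      rw [Function.update_of_ne (by omega)]
    · change Function.update (ofLex x.1) (N + 1) l (N + 1) = _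
      rw [Function.update_self]
  constructor
  · intro _ z hz
    have hne : (Iio (f x)).Nonempty := ⟨z, hz⟩
    obtain ⟨_, hσ2, hσ3⟩ := hσ (f x) hne
    obtain ⟨n, hn⟩ := hσ3 z hz
    set N := max n (nx x) with hN
    have hzN : z < σ (f x) N := lt_of_lt_of_le hn (hσ2.monotone (le_max_left _ _))
    obtain ⟨y, hy1, hy2⟩ := key N (lf t0) (le_max_right _ _)
    refine ⟨y, hltdef' y x ⟨N + 1, hy1, ?_⟩, ?_⟩
    · rw [hy2, hnx x (N + 1) ((le_max_right _ _).trans (Nat.le_succ _))]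
      exact lf_lt_mid t0
    · have h1 := hfa y (N + 1)
      rw [hdep _ _ (N + 1) hy1, stS, hnx x N (le_max_right _ _)] at h1
      have h2 := hs3 N (st (ofLex x.1) N)
      rw [hf x N (le_max_right _ _)] at h2
      exact hzN.trans_le (h2.trans h1.le) |> fun _ => lt_of_lt_of_le hzN h2 |>.trans h1
  · intro _ z hz
    have hne : (Ioi (f x)).Nonempty := ⟨z, hz⟩
    obtain ⟨_, hτ2, hτ3⟩ := hτ (f x) hne
    obtain ⟨n, hn⟩ := hτ3 z hz
    set N := max n (nx x) with hN
    have hzN : τ (f x) N < z := lt_of_le_of_lt (hτ2.antitone (le_max_left _ _)) hn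
    obtain ⟨y, hy1, hy2⟩ := key N (rt t0) (le_max_right _ _)
    refine ⟨y, hltdef' x y ⟨N + 1, fun m hm => (hy1 m hm).symm, ?_⟩, ?_⟩
    · rw [hy2, hnx x (N + 1) ((le_max_right _ _).trans (Nat.le_succ _))]
      exact mid_lt_rt t0
    · have h1 := hfb y (N + 1)
      rw [hdep _ _ (N + 1) hy1, stS, hnx x N (le_max_right _ _)] at h1
      have h2 := hs4 N (st (ofLex x.1) N)
      rw [hf x N (le_max_right _ _)] at h2
      exact h1.trans (lt_of_le_of_lt h2 hzN)

end Pool.Agent.N78.LBFracE
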