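import Pool.Agent.N804.LI.Stm

/-! Project LI (helper804), task MEAN (helper78): the mean value and its lower bound. -/

set_option autoImplicit false

namespace Pool.Agent.N78.LI_MEAN

open Filter Topology MeasureTheory Pool.Agent.N804.LI

theorem summable_w {ι : Type} {c : ι → ℝ} (hc0 : ∀ i, 0 < c i) (hc : Summable c) :
    Summable (fun k : ι × Bool => c k.1) := by
  rw [summable_prod_of_nonneg (fun k => (hc0 k.1).le)]
  refine ⟨fun i => (hasSum_fintype _).summable, ?_⟩
  have h : (fun x : ι => ∑' y : Bool, c ((x, y) : ι × Bool).1) = fun x => c x + c x := by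
    funext x
    rw [tsum_bool]
  rw [h]
  exact hc.add hc

theorem exp_sum {ι : Type} {c : ι → ℝ} (lam : ι → ℝ) (hc0 : ∀ i, 0 < c i) (hc : Summable c)
    (y : ℝ) : (∑' k : ι × Bool, (c k.1 : ℂ) *
      Complex.exp (((sg lam k * y : ℝ) : ℂ) * Complex.I)) =
      ((∑' i, 2 * c i * Real.cos (lam i * y) : ℝ) : ℂ) := by
  have hs : Summable (fun k : ι × Bool => (c k.1 : ℂ) *
      Complex.exp (((sg lam k * y : ℝ) : ℂ) * Complex.I)) := by
    apply Summable.of_norm
    have : (fun k : ι × Bool => ‖(c k.1 : ℂ) *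
      Complex.exp (((sg lam k * y : ℝ) : ℂ) * Complex.I)‖) = fun k : ι × Bool => c k.1 := by
      funext k
      rw [norm_mul, Complex.norm_exp_ofReal_mul_I, mul_one, Complex.norm_real,
        Real.norm_of_nonneg (hc0 k.1).le]
    rw [this]
    exact summable_w hc0 hc
  rw [hs.tsum_prod, Complex.ofReal_tsum]
  congr 1
  funext i
  rw [tsum_bool]
  have e1 : sg lam (i, false) = - lam i := by
    unfold sg
    simp
  have e2 : sg lam (i, true) = lam i := by
    unfold sg
    simp
  rw [e1, e2]
  push_cast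
  rw [Complex.cos]
  have e3 : (-(lam i : ℂ) * (y : ℂ)) * Complex.I = -((lam i : ℂ) * (y : ℂ)) * Complex.I := by ring
  rw [e3]
  ring

theorem ww_nonneg {K : Type} {w : K → ℝ} {κ : ℝ} (hκ : 0 ≤ κ) (hw : ∀ k, 0 ≤ w k) (p : Wd K) :
    0 ≤ ww w κ p := by
  unfold ww
  exact mul_nonneg (by positivity) (Finset.prod_nonneg fun i _ => hw _)

theorem ww_pos {K : Type} {w : K → ℝ} {κ : ℝ} (hκ : 0 < κ) (hw : ∀ k, 0 < w k) (p : Wd K) :
    0 < ww w κ p := by
  unfold ww
  exact mul_pos (by positivity) (Finset.prod_pos fun i _ => hw _)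

open Classical in
theorem main (h1 : S_EXP) (h2 : S_BES) (h3 : S_COMB) : S_MEAN := by
  intro ι c lam κ hκ hc0 hc
  obtain ⟨hsum, hlim⟩ := h1 (ι × Bool) (sg lam) (fun k => c k.1) κ hκ.le (fun k => (hc0 k.1).le)
    (summable_w hc0 hc)
  have hprod := h2 ι c κ hκ.le (fun i => (hc0 i).le) hc
  obtain ⟨hb1, hb2⟩ := h3 ι lam
  set W : Wd (ι × Bool) → ℝ := ww (fun k : ι × Bool => c k.1) κ with hW
  have hW0 : ∀ p, 0 < W p := fun p => ww_pos hκ (fun k => hc0 k.1) p
  have hsA : Summable (fun p : Wd (ι × Bool) => if ws (sg lam) p = 0 then W p else 0) := by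
    refine Summable.of_nonneg_of_le (fun p => ?_) (fun p => ?_) hsum
    · split_ifs
      · exact (hW0 p).le
      · exact le_rfl
    · split_ifs
      · exact le_rfl
      · exact (hW0 p).le
  have hsB : Summable (fun p : Wd (ι × Bool) => if Bal p then W p else 0) := by
    refine Summable.of_nonneg_of_le (fun p => ?_) (fun p => ?_) hsum
    · split_ifs
      · exact (hW0 p).le
      · exact le_rfl
    · split_ifs
      · exact le_rfl
      · exact (hW0 p).le
  set B : ℝ := ∑' p : Wd (ι × Bool), if Bal p then W p else 0 with hB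
  set E : ℝ := ∑' p : Wd (ι × Bool), if ws (sg lam) p = 0 then W p else 0 with hE
  have hBE : ∏' i, I0 (2 * κ * c i) = B := hprod.tprod_eq
  have hB1 : 0 < B := by
    let p₀ : Wd (ι × Bool) := ⟨0, fun i => i.elim0⟩
    have hp₀ : Bal p₀ := by
      intro i
      have e1 : IsEmpty {j : Fin p₀.1 // p₀.2 j = (i, true)} := ⟨fun j => j.1.elim0⟩
      have e2 : IsEmpty {j : Fin p₀.1 // p₀.2 j = (i, false)} := ⟨fun j => j.1.elim0⟩
      rw [Nat.card_of_isEmpty, Nat.card_of_isEmpty]
    have h := hsB.le_tsum p₀ (fun p _ => by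
      split_ifs
      · exact (hW0 p).le
      · exact le_rfl)
    rw [if_pos hp₀] at h
    exact (hW0 p₀).trans_le h
  have hterm : ∀ p : Wd (ι × Bool), (if Bal p then W p else 0) ≤
      (if ws (sg lam) p = 0 then W p else 0) := by
    intro p
    by_cases hp : Bal p
    · rw [if_pos hp, if_pos (hb1 p hp)]
    · rw [if_neg hp]
      split_ifs
      · exact (hW0 p).le
      · exact le_rfl
  refine ⟨hprod.multipliable, by rw [hBE]; exact hB1, E, ?_, ?_, ?_⟩
  · -- the limit
    have hEc : (∑' p : Wd (ι × Bool), if ws (sg lam) p = 0 then (W p : ℂ) else 0) = (E : ℂ) := by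
      rw [hE, Complex.ofReal_tsum]
      refine tsum_congr fun p => ?_
      split_ifs
      · rfl
      · simp
    have hY : ∀ Y : ℝ, (1 / (Y : ℂ)) * ∫ y in (0 : ℝ)..Y, Complex.exp ((κ : ℂ) *
        ∑' k : ι × Bool, ((c k.1 : ℝ) : ℂ) * Complex.exp (((sg lam k * y : ℝ) : ℂ) * Complex.I)) =
        ((EM (fun y => ∑' i, 2 * c i * Real.cos (lam i * y)) κ Y : ℝ) : ℂ) := by
      intro Y
      unfold EM
      rw [Complex.ofReal_mul, ← intervalIntegral.integral_ofReal]
      congr 1
      · push_cast
        rfl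
      · refine intervalIntegral.integral_congr fun y _ => ?_
        show Complex.exp ((κ : ℂ) * ∑' k : ι × Bool, ((c k.1 : ℝ) : ℂ) *
          Complex.exp (((sg lam k * y : ℝ) : ℂ) * Complex.I)) = _
        rw [exp_sum lam hc0 hc y, ← Complex.ofReal_mul, ← Complex.ofReal_exp]
    have h := (Complex.continuous_re.tendsto _).comp hlim
    rw [hEc, Complex.ofReal_re] at h
    refine h.congr fun Y => ?_
    rw [Function.comp_apply, hY Y, Complex.ofReal_re]
  · rw [hBE]
    exact hsB.tsum_le_tsum hterm hsA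
  · rw [hBE, hb2]
    have hdiff : E - B = ∑' p : Wd (ι × Bool), ((if ws (sg lam) p = 0 then W p else 0) -
        (if Bal p then W p else 0)) := (hsA.tsum_sub hsB).symm
    have hsD := hsA.sub hsB
    constructor
    · intro hEB p hp
      by_contra hnb
      have h0 : ∑' p : Wd (ι × Bool), ((if ws (sg lam) p = 0 then W p else 0) -
        (if Bal p then W p else 0)) = 0 := by
        rw [← hdiff, hEB, sub_self]
      have h := hsD.le_tsum p (fun q _ => sub_nonneg.2 (hterm q))
      rw [h0, if_pos hp, if_neg hnb, sub_zero] at h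
      exact absurd h (not_le.2 (hW0 p))
    · intro h
      have h0 : ∀ p : Wd (ι × Bool), (if ws (sg lam) p = 0 then W p else 0) =
          (if Bal p then W p else 0) := by
        intro p
        by_cases hp : Bal p
        · rw [if_pos hp, if_pos (hb1 p hp)]
        · rw [if_neg hp, if_neg (fun h' => hp (h p h'))]
      rw [hE, hB]
      exact tsum_congr h0

end Pool.Agent.N78.LI_MEAN
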